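import Mathlib

set_option autoImplicit false

/-! Points near lines with a slope which is the square root of a quotient of two primes. -/

namespace Pool.Agent.Helper34.NQ
open Finset

/-- pairs with the same greatest common divisor and the same slope -/
lemma pair_eq {g u v s t : ℕ} (hg : 1 ≤ g) (h1 : Nat.gcd u v = g) (h2 : Nat.gcd s t = g) (hv : 1 ≤ v)
    (h : u * t = s * v) : u = s ∧ v = t := by
  obtain ⟨u', hu'⟩ : g ∣ u := h1 ▸ Nat.gcd_dvd_left u v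
  obtain ⟨v', hv'⟩ : g ∣ v := h1 ▸ Nat.gcd_dvd_right u v
  obtain ⟨s', hs'⟩ : g ∣ s := h2 ▸ Nat.gcd_dvd_left s t
  obtain ⟨t', ht'⟩ : g ∣ t := h2 ▸ Nat.gcd_dvd_right s t
  have c1 : Nat.Coprime u' v' := by
    have : g * Nat.gcd u' v' = g * 1 := by rw [← Nat.gcd_mul_left, ← hu', ← hv', h1, mul_one]
    exact Nat.eq_of_mul_eq_mul_left (by omega) this
  have c2 : Nat.Coprime s' t' := by
    have : g * Nat.gcd s' t' = g * 1 := by rw [← Nat.gcd_mul_left, ← hs', ← ht', h2, mul_one]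
    exact Nat.eq_of_mul_eq_mul_left (by omega) this
  have h3 : u' * t' = s' * v' := by
    have : (g * g) * (u' * t') = (g * g) * (s' * v') := by
      calc (g * g) * (u' * t') = (g * u') * (g * t') := by ring
        _ = u * t := by rw [← hu', ← ht']
        _ = s * v := h
        _ = (g * s') * (g * v') := by rw [← hs', ← hv']
        _ = (g * g) * (s' * v') := by ring
    exact Nat.eq_of_mul_eq_mul_left (by positivity) this
  have d1 : v' ∣ t' := c1.symm.dvd_of_dvd_mul_left (by rw [h3]; exact dvd_mul_left v' s')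
  have d2 : t' ∣ v' := c2.symm.dvd_of_dvd_mul_left (by rw [← h3]; exact dvd_mul_left t' u')
  have e1 : v' = t' := Nat.dvd_antisymm d1 d2
  have hv0 : 0 < v' := by
    rcases Nat.eq_zero_or_pos v' with e | e
    · rw [e, mul_zero] at hv'; omega
    · exact e
  have e2 : u' = s' := by
    rw [← e1] at h3
    exact Nat.eq_of_mul_eq_mul_right hv0 h3
  exact ⟨by rw [hu', hs', e2], by rw [hv', ht', e1]⟩

/-- the number of the pairs with slopes in a short interval -/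
lemma slopes {g V : ℕ} (hg : 1 ≤ g) (hV : 1 ≤ V) (S : Finset (ℕ × ℕ))
    (hS : ∀ p ∈ S, Nat.gcd p.1 p.2 = g ∧ 1 ≤ p.2 ∧ p.2 ≤ V) (A B : ℝ) (hAB0 : A ≤ B)
    (hAB : ∀ p ∈ S, A ≤ (p.1 : ℝ) / p.2 ∧ (p.1 : ℝ) / p.2 ≤ B) :
    (S.card : ℝ) ≤ (B - A) * ((V : ℝ) ^ 2 / g ^ 2) + 2 := by
  have hg0 : (0 : ℝ) < g := by exact_mod_cast hg
  have hV0 : (0 : ℝ) < V := by exact_mod_cast hV
  obtain ⟨c, hc⟩ : ∃ c : ℝ, c = (V : ℝ) ^ 2 / g ^ 2 := ⟨_, rfl⟩
  have hc0 : 0 < c := by rw [hc]; positivity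
  rw [← hc]
  have h1 : S.card ≤ (Icc ⌊c * A⌋ ⌊c * B⌋).card := by
    apply card_le_card_of_injOn (fun p => ⌊c * ((p.1 : ℝ) / p.2)⌋)
    · intro p hp
      obtain ⟨a1, a2⟩ := hAB p hp
      rw [coe_Icc, Set.mem_Icc]
      exact ⟨Int.floor_le_floor (mul_le_mul_of_nonneg_left a1 hc0.le), Int.floor_le_floor (mul_le_mul_of_nonneg_left a2 hc0.le)⟩
    · rintro ⟨u, v⟩ hp ⟨s, t⟩ hp' heq
      obtain ⟨g1, g2, g3⟩ := hS _ hp
      obtain ⟨g4, g5, g6⟩ := hS _ hp'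
      simp only at g1 g2 g3 g4 g5 g6 heq
      have hv0 : (0 : ℝ) < v := by exact_mod_cast g2
      have ht0 : (0 : ℝ) < t := by exact_mod_cast g5
      by_cases hne : u * t = s * v
      · obtain ⟨e1, e2⟩ := pair_eq hg g1 g4 g2 hne
        rw [e1, e2]
      · exfalso
        have h2 : |c * ((u : ℝ) / v) - c * ((s : ℝ) / t)| < 1 := Int.abs_sub_lt_one_of_floor_eq_floor heq
        have h3 : (g : ℤ) ^ 2 ∣ (u : ℤ) * t - s * v := by
          obtain ⟨u', hu'⟩ : g ∣ u := g1 ▸ Nat.gcd_dvd_left u v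
          obtain ⟨v', hv'⟩ : g ∣ v := g1 ▸ Nat.gcd_dvd_right u v
          obtain ⟨s', hs'⟩ : g ∣ s := g4 ▸ Nat.gcd_dvd_left s t
          obtain ⟨t', ht'⟩ : g ∣ t := g4 ▸ Nat.gcd_dvd_right s t
          refine ⟨(u' : ℤ) * t' - s' * v', ?_⟩
          rw [hu', hv', hs', ht']
          push_cast
          ring
        have h4 : (u : ℤ) * t - s * v ≠ 0 := by
          intro h
          apply hne
          have : (u : ℤ) * t = s * v := by linarith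
          exact_mod_cast this
        have h5 : (g : ℤ) ^ 2 ≤ |(u : ℤ) * t - s * v| := Int.le_of_dvd (abs_pos.2 h4) ((dvd_abs _ _).2 h3)
        have h6 : (g : ℝ) ^ 2 ≤ |(u : ℝ) * t - s * v| := by exact_mod_cast h5
        have h7 : c * ((u : ℝ) / v) - c * ((s : ℝ) / t) = c * (((u : ℝ) * t - s * v) / (v * t)) := by
          field_simp
        rw [h7, abs_mul, abs_of_pos hc0, abs_div, abs_of_pos (mul_pos hv0 ht0)] at h2
        have h8 : (v : ℝ) * t ≤ (V : ℝ) ^ 2 := by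
          have a1 : (v : ℝ) ≤ V := by exact_mod_cast g3
          have a2 : (t : ℝ) ≤ V := by exact_mod_cast g6
          nlinarith
        have h9 : 1 ≤ c * (|(u : ℝ) * t - s * v| / (v * t)) := by
          rw [hc, ← mul_div_assoc, le_div_iff₀ (by positivity), one_mul, div_mul_eq_mul_div, le_div_iff₀ (by positivity)]
          calc (v : ℝ) * t * g ^ 2 ≤ V ^ 2 * g ^ 2 := by gcongr
            _ ≤ V ^ 2 * |(u : ℝ) * t - s * v| := by gcongr
        linarith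
  have h2 : ((Icc ⌊c * A⌋ ⌊c * B⌋).card : ℝ) ≤ c * B - c * A + 2 := by
    rw [Int.card_Icc]
    have e1 : ⌊c * A⌋ ≤ ⌊c * B⌋ := Int.floor_le_floor (mul_le_mul_of_nonneg_left hAB0 hc0.le)
    have e2 : (((⌊c * B⌋ + 1 - ⌊c * A⌋).toNat : ℕ) : ℤ) = ⌊c * B⌋ + 1 - ⌊c * A⌋ := Int.toNat_of_nonneg (by linarith)
    have e3 : (((⌊c * B⌋ + 1 - ⌊c * A⌋).toNat : ℕ) : ℝ) = (⌊c * B⌋ : ℝ) + 1 - ⌊c * A⌋ := by exact_mod_cast e2
    rw [e3]
    have e4 := Int.floor_le (c * B)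
    have e5 := (Int.lt_floor_add_one (c * A)).le
    linarith
  have h3 : (S.card : ℝ) ≤ ((Icc ⌊c * A⌋ ⌊c * B⌋).card : ℝ) := by exact_mod_cast h1
  linarith

/-- `r u² = q v²` has no solutions -/
lemma no_sol {q r u v : ℕ} (hq : Squarefree q) (hr : Squarefree r) (hqr : q ≠ r) (hu : 1 ≤ u) (hv : 1 ≤ v) :
    r * u ^ 2 ≠ q * v ^ 2 := by
  intro h
  apply hqr
  apply Nat.eq_of_factorization_eq hq.ne_zero hr.ne_zero
  intro p
  have h1 : (r * u ^ 2).factorization p = (q * v ^ 2).factorization p := by rw [h]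
  rw [Nat.factorization_mul hr.ne_zero (by positivity), Nat.factorization_mul hq.ne_zero (by positivity)] at h1
  rw [Finsupp.add_apply, Finsupp.add_apply, Nat.factorization_pow, Nat.factorization_pow, Finsupp.smul_apply,
    Finsupp.smul_apply, smul_eq_mul, smul_eq_mul] at h1
  have h2 := (Nat.squarefree_iff_factorization_le_one hq.ne_zero).1 hq p
  have h3 := (Nat.squarefree_iff_factorization_le_one hr.ne_zero).1 hr p
  omega

/-- the sum of the reciprocals of the squares -/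
lemma sum_inv_sq' (G : ℕ) : ∑ g ∈ Icc 1 G, 1 / (g : ℝ) ^ 2 ≤ 2 := by
  have h : ∀ n : ℕ, ∑ g ∈ Icc 1 (n + 1), 1 / (g : ℝ) ^ 2 ≤ 2 - 1 / ((n : ℝ) + 1) := by
    intro n
    induction n with
    | zero => norm_num
    | succ n ih =>
      rw [sum_Icc_succ_top (by omega)]
      have h1 : 1 / (((n + 1 + 1 : ℕ) : ℝ)) ^ 2 ≤ 1 / ((n : ℝ) + 1) - 1 / (((n + 1 : ℕ) : ℝ) + 1) := by
        have h0 : (0 : ℝ) ≤ n := Nat.cast_nonneg n
        push_cast
        rw [div_sub_div _ _ (by positivity) (by positivity), div_le_div_iff₀ (by positivity) (by positivity)]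
        nlinarith
      linarith
  rcases Nat.eq_zero_or_pos G with e | e
  · rw [e]; norm_num
  · obtain ⟨n, rfl⟩ : ∃ n, G = n + 1 := ⟨G - 1, by omega⟩
    have : 0 ≤ 1 / ((n : ℝ) + 1) := by positivity
    linarith [h n]

open Classical in
/-- the points near the line of slope `√(q / r)` -/
theorem cnt_pairs {q r Q U k L : ℕ} (hq : Squarefree q) (hr : Squarefree r) (hqr : q ≠ r) (hQ : 1 ≤ Q) (hq1 : Q ≤ q) (hr1 : Q ≤ r)
    (hr2 : r ≤ 2 * Q) (hU : 1 ≤ U) (hk : 1 ≤ k) (S : Finset (ℕ × ℕ))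
    (hS : ∀ p ∈ S, (U ≤ p.1 ∧ U ≤ p.2 ∧ p.2 ≤ k * U) ∧ |(r : ℤ) * p.1 ^ 2 - q * p.2 ^ 2| ≤ L) :
    (S.card : ℝ) ≤ 2 * √(L : ℝ) + 8 * k ^ 2 * (L / Q) := by
  have hQ0 : (0 : ℝ) < Q := by exact_mod_cast hQ
  have hU0 : (0 : ℝ) < U := by exact_mod_cast hU
  have hr0 : (0 : ℝ) < r := lt_of_lt_of_le hQ0 (by exact_mod_cast hr1)
  have hq0 : (0 : ℝ) < q := lt_of_lt_of_le hQ0 (by exact_mod_cast hq1)
  obtain ⟨α, hα⟩ : ∃ α, α = √((q : ℝ) / r) := ⟨_, rfl⟩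
  have hα2 : α ^ 2 = q / r := by rw [hα, Real.sq_sqrt (by positivity)]
  have hα0 : 0 < α := by rw [hα]; exact Real.sqrt_pos.2 (by positivity)
  have hα1 : 1 / 2 ≤ α := by
    rw [hα]
    apply Real.le_sqrt_of_sq_le
    rw [le_div_iff₀ hr0]
    have a1 : (r : ℝ) ≤ 2 * Q := by exact_mod_cast hr2
    have a2 : (Q : ℝ) ≤ q := by exact_mod_cast hq1
    linarith
  obtain ⟨ℓ, hℓ⟩ : ∃ ℓ : ℝ, ℓ = 2 * L / (Q * U ^ 2) := ⟨_, rfl⟩
  have hℓ0 : 0 ≤ ℓ := by rw [hℓ]; positivity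
  -- the slopes
  have hsl : ∀ p ∈ S, α - ℓ ≤ (p.1 : ℝ) / p.2 ∧ (p.1 : ℝ) / p.2 ≤ α + ℓ := by
    rintro ⟨u, v⟩ hp
    obtain ⟨⟨b1, b2, b3⟩, b4⟩ := hS _ hp
    simp only at b1 b2 b3 b4 ⊢
    have hv0 : (0 : ℝ) < v := lt_of_lt_of_le hU0 (by exact_mod_cast b2)
    have b5 : |(r : ℝ) * u ^ 2 - q * v ^ 2| ≤ L := by exact_mod_cast b4
    have e1 : (r : ℝ) * u ^ 2 - q * v ^ 2 = (r * v ^ 2) * (((u : ℝ) / v - α) * ((u : ℝ) / v + α)) := by
      have : ((u : ℝ) / v - α) * ((u : ℝ) / v + α) = (u : ℝ) ^ 2 / v ^ 2 - q / r := by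
        rw [← hα2]
        ring
      rw [this]
      field_simp
    rw [e1, abs_mul ((r : ℝ) * v ^ 2), abs_mul ((u : ℝ) / v - α), abs_of_pos (by positivity : 0 < (r : ℝ) * v ^ 2),
      abs_of_pos (by positivity : 0 < (u : ℝ) / v + α)] at b5
    have e2 : |(u : ℝ) / v - α| ≤ ℓ := by
      rw [hℓ, le_div_iff₀ (by positivity)]
      have a1 : (Q : ℝ) * U ^ 2 ≤ r * v ^ 2 := by
        have c1 : (Q : ℝ) ≤ r := by exact_mod_cast hr1
        have c2 : (U : ℝ) ≤ v := by exact_mod_cast b2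
        gcongr
      have a2 : 1 / 2 ≤ (u : ℝ) / v + α := by
        have : 0 ≤ (u : ℝ) / v := by positivity
        linarith
      have a3 : |(u : ℝ) / v - α| * (Q * U ^ 2) * (1 / 2) ≤ |(u : ℝ) / v - α| * (r * v ^ 2) * ((u : ℝ) / v + α) := by
        gcongr
      nlinarith
    rw [abs_le] at e2
    constructor <;> linarith [e2.1, e2.2]
  -- the greatest common divisors
  have hgc : ∀ p ∈ S, Nat.gcd p.1 p.2 ∈ Icc 1 (Nat.sqrt L) := by
    rintro ⟨u, v⟩ hp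
    obtain ⟨⟨b1, b2, b3⟩, b4⟩ := hS _ hp
    simp only at b1 b2 b3 b4 ⊢
    have hg : 1 ≤ Nat.gcd u v := Nat.gcd_pos_of_pos_left v (by omega)
    rw [mem_Icc]
    refine ⟨hg, ?_⟩
    rw [Nat.le_sqrt']
    have c1 : (r : ℤ) * u ^ 2 - q * v ^ 2 ≠ 0 := by
      intro h
      have h2 : (r : ℤ) * u ^ 2 = q * v ^ 2 := by linarith
      exact no_sol hq hr hqr (by omega : 1 ≤ u) (by omega : 1 ≤ v) (by exact_mod_cast h2)
    have c2 : ((Nat.gcd u v : ℕ) : ℤ) ^ 2 ∣ (r : ℤ) * u ^ 2 - q * v ^ 2 := by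
      obtain ⟨u', hu'⟩ := Nat.gcd_dvd_left u v
      obtain ⟨v', hv'⟩ := Nat.gcd_dvd_right u v
      have e1 : (u : ℤ) = (Nat.gcd u v : ℤ) * u' := by exact_mod_cast hu'
      have e2 : (v : ℤ) = (Nat.gcd u v : ℤ) * v' := by exact_mod_cast hv'
      refine ⟨(r : ℤ) * u' ^ 2 - q * v' ^ 2, ?_⟩
      calc (r : ℤ) * u ^ 2 - q * v ^ 2 = r * ((Nat.gcd u v : ℤ) * u') ^ 2 - q * ((Nat.gcd u v : ℤ) * v') ^ 2 := by
            rw [← e1, ← e2]
        _ = _ := by ring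
    have c3 := Int.le_of_dvd (abs_pos.2 c1) ((dvd_abs _ _).2 c2)
    have c4 : ((Nat.gcd u v : ℕ) : ℤ) ^ 2 ≤ L := c3.trans b4
    exact_mod_cast c4
  have h1 : (S.card : ℝ) = ∑ g ∈ Icc 1 (Nat.sqrt L), ((S.filter (fun p => Nat.gcd p.1 p.2 = g)).card : ℝ) := by
    rw [card_eq_sum_card_fiberwise hgc]
    push_cast
    rfl
  have h2 : ∀ g ∈ Icc 1 (Nat.sqrt L), ((S.filter (fun p => Nat.gcd p.1 p.2 = g)).card : ℝ) ≤
      4 * k ^ 2 * (L / Q) * (1 / (g : ℝ) ^ 2) + 2 := by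
    intro g hg
    rw [mem_Icc] at hg
    have hg0 : (0 : ℝ) < g := by exact_mod_cast hg.1
    have c1 := slopes (V := k * U) hg.1 (Nat.mul_pos hk hU) (S.filter (fun p => Nat.gcd p.1 p.2 = g)) ?_ (α - ℓ) (α + ℓ)
      (by linarith) ?_
    · refine c1.trans (le_of_eq ?_)
      rw [hℓ]
      push_cast
      field_simp
      ring
    · intro p hp
      rw [mem_filter] at hp
      obtain ⟨⟨b1, b2, b3⟩, b4⟩ := hS _ hp.1
      exact ⟨hp.2, by omega, b3⟩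
    · intro p hp
      rw [mem_filter] at hp
      exact hsl p hp.1
  rw [h1]
  refine (sum_le_sum h2).trans ?_
  rw [sum_add_distrib, ← mul_sum, sum_const, Nat.card_Icc, Nat.add_sub_cancel, nsmul_eq_mul]
  have h3 := sum_inv_sq' (Nat.sqrt L)
  have h4 : ((Nat.sqrt L : ℕ) : ℝ) ≤ √(L : ℝ) := Real.nat_sqrt_le_real_sqrt
  have h5 : 0 ≤ 4 * (k : ℝ) ^ 2 * (L / Q) := by positivity
  nlinarith

end Pool.Agent.Helper34.NQ
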