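import Mathlib
import Pool.Agent.Helper34.NQ.B1

set_option autoImplicit false

/-! The runs of multiples next to the values of a quadratic polynomial: the second moment. -/

namespace Pool.Agent.Helper34.NQ
open Finset

/-- the quadratic polynomial -/
def fq (a : ℕ) (b g : ℤ) (x : ℕ) : ℤ := a * (x : ℤ) ^ 2 + b * x + g

/-- the `m` with `y < q m ≤ y + H` -/
noncomputable def run (y : ℤ) (H q : ℕ) : Finset ℤ := Ioc (y / q) ((y + H) / q)

lemma mem_run {y m : ℤ} {H q : ℕ} (hq : 1 ≤ q) : m ∈ run y H q ↔ y < q * m ∧ q * m ≤ y + H := by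
  have hq0 : (0 : ℤ) < q := by exact_mod_cast hq
  unfold run
  rw [mem_Ioc, Int.ediv_lt_iff_lt_mul hq0, Int.le_ediv_iff_mul_le hq0, mul_comm m]

lemma card_run (y : ℤ) {H q : ℕ} (hq : 1 ≤ q) : |((run y H q).card : ℝ) - H / q| ≤ 1 := by
  have hq0 : (0 : ℝ) < q := by exact_mod_cast hq
  have hqz : (0 : ℤ) < q := by exact_mod_cast hq
  unfold run
  rw [Int.card_Ioc]
  have h1 : y / q ≤ (y + H) / q := Int.ediv_le_ediv hqz (by omega)
  have h2 : (((((y + H) / q - y / q).toNat : ℕ)) : ℤ) = (y + H) / q - y / q := Int.toNat_of_nonneg (by linarith)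
  have h3 : (((((y + H) / q - y / q).toNat : ℕ)) : ℝ) = (((y + H) / q : ℤ) : ℝ) - ((y / q : ℤ) : ℝ) := by exact_mod_cast h2
  rw [h3]
  have a1 : (y : ℝ) - q < q * ((y / q : ℤ) : ℝ) := by
    have := Int.lt_ediv_add_one_mul_self y hqz
    have h : (y : ℝ) < (((y / q : ℤ) : ℝ) + 1) * q := by exact_mod_cast this
    linarith
  have a2 : (q : ℝ) * ((y / q : ℤ) : ℝ) ≤ y := by
    have := Int.ediv_mul_le y hqz.ne'
    have h : ((y / q : ℤ) : ℝ) * q ≤ y := by exact_mod_cast this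
    linarith
  have a3 : (y : ℝ) + H - q < q * (((y + H) / q : ℤ) : ℝ) := by
    have := Int.lt_ediv_add_one_mul_self (y + H) hqz
    have h : (y : ℝ) + H < ((((y + H) / q : ℤ) : ℝ) + 1) * q := by exact_mod_cast this
    linarith
  have a4 : (q : ℝ) * (((y + H) / q : ℤ) : ℝ) ≤ y + H := by
    have := Int.ediv_mul_le (y + H) hqz.ne'
    have h : (((y + H) / q : ℤ) : ℝ) * q ≤ (y : ℝ) + H := by exact_mod_cast this
    linarith
  rw [abs_le]
  have e : (H : ℝ) / q * q = H := div_mul_cancel₀ _ hq0.ne'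
  constructor
  · have : (-1 : ℝ) * q ≤ ((((y + H) / q : ℤ) : ℝ) - ((y / q : ℤ) : ℝ) - H / q) * q := by nlinarith
    exact le_of_mul_le_mul_right this hq0
  · have : ((((y + H) / q : ℤ) : ℝ) - ((y / q : ℤ) : ℝ) - H / q) * q ≤ 1 * q := by nlinarith
    exact le_of_mul_le_mul_right this hq0

/-- the number of the `x` with `m` in the run -/
noncomputable def wq (a : ℕ) (b g : ℤ) (X H q : ℕ) (m : ℤ) : ℝ :=
  ∑ x ∈ Ioc X (2 * X), if m ∈ run (fq a b g x) H q then (1 : ℝ) else 0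

open Classical in
/-- the pairs with a common point of the runs -/
noncomputable def NN (a : ℕ) (b g : ℤ) (X H q r : ℕ) : Finset (ℕ × ℕ) :=
  ((Ioc X (2 * X)) ×ˢ (Ioc X (2 * X))).filter (fun p => ∃ m, m ∈ run (fq a b g p.1) H q ∧ m ∈ run (fq a b g p.2) H r)

lemma diagN {a : ℕ} {b g : ℤ} {X H q : ℕ} (ha : 1 ≤ a) (hq : 1 ≤ q) (hb : |b| ≤ X) (hX : 1 ≤ X) (hH : H ≤ X) :
    (NN a b g X H q q).card ≤ X := by
  classical
  have h1 : NN a b g X H q q ⊆ (Ioc X (2 * X)).image (fun x => (x, x)) := by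
    rintro ⟨x, y⟩ hp
    unfold NN at hp
    rw [mem_filter, mem_product, mem_Ioc, mem_Ioc] at hp
    obtain ⟨⟨h1, h2⟩, m, h3, h4⟩ := hp
    simp only at h1 h2 h3 h4
    rw [mem_run hq] at h3 h4
    have h5 : |fq a b g x - fq a b g y| < H := by
      rw [abs_lt]
      constructor <;> linarith [h3.1, h3.2, h4.1, h4.2]
    have h6 : fq a b g x - fq a b g y = ((x : ℤ) - y) * (a * ((x : ℤ) + y) + b) := by
      unfold fq
      ring
    have h7 : (X : ℤ) ≤ a * ((x : ℤ) + y) + b := by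
      rw [abs_le] at hb
      have e1 : (1 : ℤ) ≤ a := by exact_mod_cast ha
      have e2 : (2 * X : ℤ) ≤ (x : ℤ) + y := by
        have := h1.1
        have := h2.1
        omega
      nlinarith [hb.1]
    have h8 : x = y := by
      by_contra hne
      have e1 : (1 : ℤ) ≤ |(x : ℤ) - y| := Int.one_le_abs (by omega)
      rw [h6, abs_mul] at h5
      have e2 : (X : ℤ) ≤ |(a : ℤ) * ((x : ℤ) + y) + b| := h7.trans (le_abs_self _)
      have e3 : (X : ℤ) ≤ |(x : ℤ) - y| * |(a : ℤ) * ((x : ℤ) + y) + b| := by nlinarith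
      have e4 : (H : ℤ) ≤ X := by exact_mod_cast hH
      linarith
    rw [mem_image]
    exact ⟨x, by rw [mem_Ioc]; exact h1, by rw [h8]⟩
  refine (card_le_card h1).trans (card_image_le.trans ?_)
  rw [Nat.card_Ioc]
  omega

lemma offN {a : ℕ} {b g : ℤ} {X H Q q r K : ℕ} (ha : 1 ≤ a) (hq : Squarefree q) (hr : Squarefree r) (hqr : q ≠ r) (hQ : 1 ≤ Q)
    (hq1 : Q ≤ q) (hq2 : q ≤ 2 * Q) (hr1 : Q ≤ r) (hr2 : r ≤ 2 * Q) (hb : |b| ≤ X) (hX : 1 ≤ X) (hQH : Q ≤ H)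
    (hg : |g| ≤ K * H) :
    ((NN a b g X H q r).card : ℝ) ≤ 202 * ((8 * a + b.natAbs ^ 2 + 4 * a * K : ℕ) : ℝ) * H := by
  classical
  obtain ⟨c, hc⟩ : ∃ c : ℕ, c = 8 * a + b.natAbs ^ 2 + 4 * a * K := ⟨_, rfl⟩
  have hc1 : 1 ≤ c := by omega
  rw [← hc]
  obtain ⟨S, hS⟩ : ∃ S, S = (NN a b g X H q r).image
    (fun p : ℕ × ℕ => ((2 * a * (p.1 : ℤ) + b).toNat, (2 * a * (p.2 : ℤ) + b).toNat)) := ⟨_, rfl⟩
  have hbb := abs_le.1 hb
  have ha1 : (1 : ℤ) ≤ a := by exact_mod_cast ha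
  have hu : ∀ x ∈ Ioc X (2 * X), (a * X : ℤ) ≤ 2 * a * (x : ℤ) + b ∧ 2 * a * (x : ℤ) + b ≤ 5 * (a * X : ℤ) := by
    intro x hx
    rw [mem_Ioc] at hx
    have e1 : (X : ℤ) ≤ x := by exact_mod_cast hx.1.le
    have e2 : (x : ℤ) ≤ 2 * X := by exact_mod_cast hx.2
    have e3 : (0 : ℤ) ≤ X := by positivity
    constructor <;> nlinarith [hbb.1, hbb.2]
  have haX : (1 : ℤ) ≤ a * X := by
    have : (1 : ℤ) ≤ X := by exact_mod_cast hX
    nlinarith
  have hcard : (NN a b g X H q r).card = S.card := by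
    rw [hS, card_image_of_injOn]
    rintro ⟨x, y⟩ hp ⟨x', y'⟩ hp' heq
    have hp1 := hp
    have hp1' := hp'
    unfold NN at hp1 hp1'
    rw [mem_coe, mem_filter, mem_product] at hp1 hp1'
    simp only [Prod.mk.injEq] at heq ⊢
    obtain ⟨e1, e2⟩ := heq
    have i1 := hu x hp1.1.1
    have i2 := hu y hp1.1.2
    have i3 := hu x' hp1'.1.1
    have i4 := hu y' hp1'.1.2
    have j1 : 2 * a * (x : ℤ) + b = 2 * a * (x' : ℤ) + b := by omega
    have j2 : 2 * a * (y : ℤ) + b = 2 * a * (y' : ℤ) + b := by omega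
    have j3 : (2 * a : ℤ) ≠ 0 := by omega
    have k1 : (x : ℤ) = x' := mul_left_cancel₀ j3 (by linarith)
    have k2 : (y : ℤ) = y' := mul_left_cancel₀ j3 (by linarith)
    exact ⟨by exact_mod_cast k1, by exact_mod_cast k2⟩
  rw [hcard]
  have key := cnt_pairs (U := a * X) (k := 5) (L := c * (Q * H)) hq hr hqr hQ hq1 hr1 hr2 (Nat.mul_pos ha hX) (by norm_num) S ?_
  · refine key.trans ?_
    have hQ0 : (0 : ℝ) < Q := by exact_mod_cast hQ
    have hH0 : (0 : ℝ) ≤ H := Nat.cast_nonneg _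
    have hc0 : (1 : ℝ) ≤ c := by exact_mod_cast hc1
    have hQH' : (Q : ℝ) ≤ H := by exact_mod_cast hQH
    have e1 : √((c * (Q * H) : ℕ) : ℝ) ≤ c * H := by
      rw [Real.sqrt_le_left (by positivity)]
      push_cast
      calc (c : ℝ) * (Q * H) ≤ c * (H * H) := by gcongr
        _ ≤ (c * c) * (H * H) := by
            apply mul_le_mul_of_nonneg_right _ (by positivity)
            nlinarith
        _ = (c * H) ^ 2 := by ring
    have e2 : ((c * (Q * H) : ℕ) : ℝ) / Q = c * H := by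
      push_cast
      field_simp
    rw [e2]
    push_cast
    push_cast at e1
    linarith
  · intro p hp
    rw [hS, mem_image] at hp
    obtain ⟨⟨x, y⟩, hp1, rfl⟩ := hp
    unfold NN at hp1
    rw [mem_filter, mem_product] at hp1
    obtain ⟨⟨h1, h2⟩, m, h3, h4⟩ := hp1
    simp only at h1 h2 h3 h4 ⊢
    rw [mem_run (by omega)] at h3 h4
    have i1 := hu x h1
    have i2 := hu y h2
    refine ⟨⟨by omega, by omega, by omega⟩, ?_⟩
    have t1 : (((2 * a * (x : ℤ) + b).toNat : ℕ) : ℤ) = 2 * a * (x : ℤ) + b := Int.toNat_of_nonneg (by linarith)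
    have t2 : (((2 * a * (y : ℤ) + b).toNat : ℕ) : ℤ) = 2 * a * (y : ℤ) + b := Int.toNat_of_nonneg (by linarith)
    rw [t1, t2]
    obtain ⟨s, hs⟩ : ∃ s : ℤ, s = q * m - fq a b g x := ⟨_, rfl⟩
    obtain ⟨t, ht⟩ : ∃ t : ℤ, t = r * m - fq a b g y := ⟨_, rfl⟩
    have hs0 : 0 < s := by linarith [h3.1]
    have hs1 : s ≤ H := by linarith [h3.2]
    have ht0 : 0 < t := by linarith [h4.1]
    have ht1 : t ≤ H := by linarith [h4.2]
    have e1 : (r : ℤ) * (2 * a * (x : ℤ) + b) ^ 2 - q * (2 * a * (y : ℤ) + b) ^ 2 =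
        4 * a * (q * t - r * s) + (b ^ 2 - 4 * a * g) * ((r : ℤ) - q) := by
      rw [hs, ht]
      unfold fq
      ring
    rw [e1]
    have q2 : (q : ℤ) ≤ 2 * Q := by exact_mod_cast hq2
    have r2 : (r : ℤ) ≤ 2 * Q := by exact_mod_cast hr2
    have q1 : (Q : ℤ) ≤ q := by exact_mod_cast hq1
    have r1 : (Q : ℤ) ≤ r := by exact_mod_cast hr1
    have hQz : (1 : ℤ) ≤ Q := by exact_mod_cast hQ
    have hHz : (1 : ℤ) ≤ H := by linarith
    have e2 : |(q : ℤ) * t - r * s| ≤ 2 * Q * H := by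
      rw [abs_le]
      constructor
      · nlinarith [mul_nonneg (by linarith : (0 : ℤ) ≤ q) ht0.le, mul_le_mul r2 hs1 hs0.le (by linarith : (0 : ℤ) ≤ 2 * Q)]
      · nlinarith [mul_nonneg (by linarith : (0 : ℤ) ≤ r) hs0.le, mul_le_mul q2 ht1 ht0.le (by linarith : (0 : ℤ) ≤ 2 * Q)]
    have e3 : |(r : ℤ) - q| ≤ Q := by
      rw [abs_le]
      constructor <;> linarith
    have e4 : |b ^ 2 - 4 * a * g| ≤ (b.natAbs ^ 2 + 4 * a * K : ℤ) * H := by
      have d1 : |b ^ 2 - 4 * a * g| ≤ |b ^ 2| + |4 * a * g| := abs_sub _ _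
      have d2 : |b ^ 2| = (b.natAbs : ℤ) ^ 2 := by
        rw [abs_pow, Int.abs_eq_natAbs]
      have d3 : |4 * a * g| = 4 * a * |g| := by
        rw [abs_mul, abs_of_nonneg (by positivity : (0 : ℤ) ≤ 4 * a)]
      rw [d2, d3] at d1
      have d4 : (4 * a : ℤ) * |g| ≤ 4 * a * (K * H) := mul_le_mul_of_nonneg_left hg (by positivity)
      have d5 : (b.natAbs : ℤ) ^ 2 ≤ (b.natAbs : ℤ) ^ 2 * H := le_mul_of_one_le_right (by positivity) hHz
      linarith
    have e5 : |4 * (a : ℤ) * (q * t - r * s)| ≤ 4 * a * (2 * Q * H) := by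
      rw [abs_mul, abs_of_nonneg (by positivity : (0 : ℤ) ≤ 4 * a)]
      exact mul_le_mul_of_nonneg_left e2 (by positivity)
    have e6 : |(b ^ 2 - 4 * a * g) * ((r : ℤ) - q)| ≤ ((b.natAbs ^ 2 + 4 * a * K : ℤ) * H) * Q := by
      rw [abs_mul]
      exact mul_le_mul e4 e3 (abs_nonneg _) (by positivity)
    refine (abs_add_le _ _).trans ((add_le_add e5 e6).trans (le_of_eq ?_))
    rw [hc]
    push_cast
    ring

/-- one pair of primes -/
lemma pair_sum {a : ℕ} {b g : ℤ} {X H Q q r : ℕ} (M : ℤ) (hQ : 1 ≤ Q) (hq1 : Q ≤ q) (hQH : Q ≤ H) :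
    ∑ m ∈ Icc 1 M, wq a b g X H q m * wq a b g X H r m ≤ (NN a b g X H q r).card * (2 * (H / Q)) := by
  classical
  have hQ0 : (0 : ℝ) < Q := by exact_mod_cast hQ
  have hq0 : (0 : ℝ) < q := lt_of_lt_of_le hQ0 (by exact_mod_cast hq1)
  have h1 : ∑ m ∈ Icc 1 M, wq a b g X H q m * wq a b g X H r m =
      ∑ p ∈ (Ioc X (2 * X)) ×ˢ (Ioc X (2 * X)), ∑ m ∈ Icc 1 M,
        (if m ∈ run (fq a b g p.1) H q then (1 : ℝ) else 0) * (if m ∈ run (fq a b g p.2) H r then (1 : ℝ) else 0) := by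
    rw [sum_comm]
    apply sum_congr rfl
    intro m _
    unfold wq
    rw [sum_mul_sum, sum_product]
  rw [h1, ← sum_filter_add_sum_filter_not _ (fun p : ℕ × ℕ => ∃ m, m ∈ run (fq a b g p.1) H q ∧ m ∈ run (fq a b g p.2) H r)]
  have h2 : ∑ p ∈ ((Ioc X (2 * X)) ×ˢ (Ioc X (2 * X))).filter (fun p : ℕ × ℕ => ¬ ∃ m, m ∈ run (fq a b g p.1) H q ∧ m ∈ run (fq a b g p.2) H r),
      ∑ m ∈ Icc 1 M, (if m ∈ run (fq a b g p.1) H q then (1 : ℝ) else 0) * (if m ∈ run (fq a b g p.2) H r then (1 : ℝ) else 0) = 0 := by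
    apply sum_eq_zero
    intro p hp
    rw [mem_filter] at hp
    apply sum_eq_zero
    intro m _
    by_cases c1 : m ∈ run (fq a b g p.1) H q
    · by_cases c2 : m ∈ run (fq a b g p.2) H r
      · exact absurd ⟨m, c1, c2⟩ hp.2
      · rw [if_neg c2, mul_zero]
    · rw [if_neg c1, zero_mul]
  rw [h2, add_zero]
  have h3 : ∀ p ∈ NN a b g X H q r,
      ∑ m ∈ Icc 1 M, (if m ∈ run (fq a b g p.1) H q then (1 : ℝ) else 0) * (if m ∈ run (fq a b g p.2) H r then (1 : ℝ) else 0) ≤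
        2 * (H / Q) := by
    intro p _
    calc ∑ m ∈ Icc 1 M, (if m ∈ run (fq a b g p.1) H q then (1 : ℝ) else 0) * (if m ∈ run (fq a b g p.2) H r then (1 : ℝ) else 0)
        ≤ ∑ m ∈ Icc 1 M, (if m ∈ run (fq a b g p.1) H q then (1 : ℝ) else 0) := by
          apply sum_le_sum
          intro m _
          split_ifs <;> norm_num
      _ = (((Icc 1 M).filter (fun m => m ∈ run (fq a b g p.1) H q)).card : ℝ) := by
          rw [← sum_filter, sum_const, nsmul_eq_mul, mul_one]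
      _ ≤ ((run (fq a b g p.1) H q).card : ℝ) := by
          have : (Icc 1 M).filter (fun m => m ∈ run (fq a b g p.1) H q) ⊆ run (fq a b g p.1) H q := by
            intro m hm
            exact (mem_filter.1 hm).2
          exact_mod_cast card_le_card this
      _ ≤ 2 * (H / Q) := by
          have e1 := (abs_le.1 (card_run (fq a b g p.1) (H := H) (by omega : 1 ≤ q))).2
          have e2 : (H : ℝ) / q ≤ H / Q := by
            apply div_le_div_of_nonneg_left (Nat.cast_nonneg _) hQ0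
            exact_mod_cast hq1
          have e3 : 1 ≤ (H : ℝ) / Q := by
            rw [le_div_iff₀ hQ0]
            rw [one_mul]
            exact_mod_cast hQH
          linarith
  refine (sum_le_sum h3).trans (le_of_eq ?_)
  rw [sum_const, nsmul_eq_mul]

/-- the second moment -/
theorem second {a : ℕ} {b g : ℤ} {X H Q K : ℕ} (M : ℤ) (ha : 1 ≤ a) (P : Finset ℕ) (hP : ∀ q ∈ P, Squarefree q ∧ Q ≤ q ∧ q ≤ 2 * Q)
    (hQ : 1 ≤ Q) (hb : |b| ≤ X) (hX : 1 ≤ X) (hQH : Q ≤ H) (hH : H ≤ X) (hg : |g| ≤ K * H) :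
    ∑ m ∈ Icc 1 M, (∑ q ∈ P, wq a b g X H q m) ^ 2 ≤
      (2 * ((H : ℝ) / Q)) * (P.card * X + P.card ^ 2 * (202 * ((8 * a + b.natAbs ^ 2 + 4 * a * K : ℕ) : ℝ) * H)) := by
  classical
  obtain ⟨c, hc⟩ : ∃ c : ℝ, c = 202 * ((8 * a + b.natAbs ^ 2 + 4 * a * K : ℕ) : ℝ) := ⟨_, rfl⟩
  have hc0 : 0 ≤ c := by rw [hc]; positivity
  have h1 : ∑ m ∈ Icc 1 M, (∑ q ∈ P, wq a b g X H q m) ^ 2 =
      ∑ q ∈ P, ∑ r ∈ P, ∑ m ∈ Icc 1 M, wq a b g X H q m * wq a b g X H r m := by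
    have e : ∀ m ∈ Icc 1 M, (∑ q ∈ P, wq a b g X H q m) ^ 2 = ∑ q ∈ P, ∑ r ∈ P, wq a b g X H q m * wq a b g X H r m := by
      intro m _
      rw [sq, sum_mul_sum]
    rw [sum_congr rfl e, sum_comm]
    apply sum_congr rfl
    intro q _
    rw [sum_comm]
  rw [h1]
  have h2 : ∀ q ∈ P, ∀ r ∈ P, ∑ m ∈ Icc 1 M, wq a b g X H q m * wq a b g X H r m ≤
      (2 * ((H : ℝ) / Q)) * ((if q = r then (X : ℝ) else 0) + c * H) := by
    intro q hq r hr
    obtain ⟨p1, p2, p3⟩ := hP q hq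
    obtain ⟨r1, r2, r3⟩ := hP r hr
    refine (pair_sum M hQ p2 hQH).trans ?_
    rw [mul_comm]
    apply mul_le_mul_of_nonneg_left _ (by positivity)
    by_cases hqr : q = r
    · rw [if_pos hqr, ← hqr]
      have := diagN (g := g) ha (by omega : 1 ≤ q) hb hX hH
      have e : ((NN a b g X H q q).card : ℝ) ≤ X := by exact_mod_cast this
      have : 0 ≤ c * H := by positivity
      linarith
    · rw [if_neg hqr, zero_add, hc]
      exact offN ha p1 r1 hqr hQ p2 p3 r2 r3 hb hX hQH hg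
  refine (sum_le_sum (fun q hq => sum_le_sum (fun r hr => h2 q hq r hr))).trans (le_of_eq ?_)
  rw [← hc]
  have h3 : ∀ q ∈ P, ∑ r ∈ P, (2 * ((H : ℝ) / Q)) * ((if q = r then (X : ℝ) else 0) + c * H) =
      (2 * ((H : ℝ) / Q)) * (X + P.card * (c * H)) := by
    intro q hq
    rw [← mul_sum, sum_add_distrib, sum_ite_eq, if_pos hq, sum_const, nsmul_eq_mul]
  rw [sum_congr rfl h3, sum_const, nsmul_eq_mul]
  ring

end Pool.Agent.Helper34.NQ
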