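import Mathlib
import Pool.Agent.Helper34.NQ.B2
import Pool.Agent.Helper34.SW.V5

set_option autoImplicit false

/-! The multiples of the primes of a block in the windows next to the values of a quadratic polynomial. -/

namespace Pool.Agent.Helper34.NQ
open Finset
open Pool.Agent.Helper34.SW (vq omq wz wM MRT VF mrt_v lr lr_abs)

/-- the Liouville function on the integers -/
noncomputable def Lz (m : ℤ) : ℝ := if 1 ≤ m then lr m.toNat else 0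

lemma Lz_abs (m : ℤ) : |Lz m| ≤ 1 := by
  unfold Lz
  split_ifs
  · rw [lr_abs]
  · simp

lemma wz_empty (m : ℤ) : wz (vq ∅) m = (Lz m : ℂ) := by
  unfold wz Lz vq omq lr
  split_ifs
  · simp
  · simp

/-- the sum over a short window -/
noncomputable def AJ (J : ℕ) (m : ℤ) : ℝ := ∑ j ∈ Ioo (0 : ℤ) J, Lz (m + j)

lemma AJ_abs (J : ℕ) (m : ℤ) : |AJ J m| ≤ J := by
  unfold AJ
  refine (abs_sum_le_sum_abs _ _).trans ((sum_le_sum (fun j _ => Lz_abs (m + j))).trans ?_)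
  rw [sum_const, Int.card_Ioo, nsmul_eq_mul, mul_one]
  exact_mod_cast (by omega : ((J : ℤ) - 0 - 1).toNat ≤ J)

/-- short windows on average -/
lemma short (δ : ℝ) (hδ : 0 < δ) : ∃ J M₀ : ℕ, 2 ≤ J ∧ ∀ M : ℕ, M₀ ≤ M → ∑ m ∈ Icc (1 : ℤ) M, |AJ J m| ≤ δ * J * M := by
  obtain ⟨J₀, M₁, h⟩ := mrt_v 0 (δ / 2) (by positivity)
  refine ⟨J₀ + 2, M₁ + J₀ + 2, by omega, ?_⟩
  intro M hM
  have hv : VF 0 (vq ∅) := ⟨∅, by simp, by simp, rfl⟩
  obtain ⟨J, hJ⟩ : ∃ J, J = J₀ + 2 := ⟨_, rfl⟩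
  rw [← hJ]
  obtain ⟨g, hg⟩ : ∃ g : ℕ → ℂ, g = fun m => if m ≤ M then ((SignType.sign (AJ J m) : ℝ) : ℂ) else 0 := ⟨_, rfl⟩
  have hg1 : ∀ n, ‖g n‖ ≤ 1 := by
    intro n
    rw [hg]
    simp only
    split_ifs
    · rcases lt_trichotomy (AJ J n) 0 with c | c | c
      · rw [sign_neg c]; simp
      · rw [c, sign_zero]; simp
      · rw [sign_pos c]; simp
    · simp
  have key := h (vq ∅) hv (2 * M) J (by omega) (by omega) (by omega) g hg1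
  have h1 : ∑ m ∈ Icc (1 : ℤ) M, |AJ J m| = ∑ m ∈ Icc 1 M, |AJ J (m : ℕ)| := by
    have : Icc (1 : ℤ) M = (Icc 1 M).image (fun n : ℕ => (n : ℤ)) := by
      ext x
      rw [mem_Icc, mem_image]
      constructor
      · rintro ⟨a1, a2⟩
        exact ⟨x.toNat, by rw [mem_Icc]; omega, by omega⟩
      · rintro ⟨n, hn, rfl⟩
        rw [mem_Icc] at hn
        omega
    rw [this, sum_image (fun x _ y _ hxy => by exact_mod_cast hxy)]
  have h2 : ((∑ m ∈ Icc 1 M, |AJ J (m : ℕ)| : ℝ) : ℂ) = ∑ j ∈ Ioo (0 : ℤ) J, ∑ m ∈ Icc 1 (2 * M), g m * wM (vq ∅) (2 * M) (m + j) := by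
    rw [sum_comm]
    have e1 : ∀ m ∈ Icc 1 (2 * M), ∑ j ∈ Ioo (0 : ℤ) J, g m * wM (vq ∅) (2 * M) (m + j) =
        if m ≤ M then ((|AJ J (m : ℕ)| : ℝ) : ℂ) else 0 := by
      intro m hm
      rw [mem_Icc] at hm
      by_cases hmM : m ≤ M
      · rw [if_pos hmM, ← mul_sum]
        have e2 : ∑ j ∈ Ioo (0 : ℤ) J, wM (vq ∅) (2 * M) (m + j) = ((AJ J (m : ℕ) : ℝ) : ℂ) := by
          unfold AJ
          push_cast
          apply sum_congr rfl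
          intro j hj
          rw [mem_Ioo] at hj
          unfold wM
          rw [if_pos (by push_cast; omega), wz_empty]
        rw [e2, hg]
        simp only
        rw [if_pos hmM, ← Complex.ofReal_mul, sign_mul_self]
      · rw [if_neg hmM, hg]
        simp only
        rw [if_neg hmM]
        simp
    rw [sum_congr rfl e1, ← sum_filter]
    push_cast
    apply sum_congr _ (fun _ _ => rfl)
    ext m
    rw [mem_filter, mem_Icc, mem_Icc]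
    omega
  have h3 : ∑ m ∈ Icc 1 M, |AJ J (m : ℕ)| ≤ ∑ j ∈ Ioo (-(J : ℤ)) J, ‖∑ m ∈ Icc 1 (2 * M), g m * wM (vq ∅) (2 * M) (m + j)‖ := by
    have e0 : 0 ≤ ∑ m ∈ Icc 1 M, |AJ J (m : ℕ)| := sum_nonneg fun _ _ => abs_nonneg _
    have e1 : ∑ m ∈ Icc 1 M, |AJ J (m : ℕ)| = ‖((∑ m ∈ Icc 1 M, |AJ J (m : ℕ)| : ℝ) : ℂ)‖ := by
      rw [Complex.norm_real, Real.norm_eq_abs, abs_of_nonneg e0]
    rw [e1, h2]
    refine (norm_sum_le _ _).trans ?_
    apply sum_le_sum_of_subset_of_nonneg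
    · intro j hj
      rw [mem_Ioo] at hj ⊢
      omega
    · intro j _ _
      exact norm_nonneg _
  rw [h1]
  refine h3.trans (key.trans (le_of_eq ?_))
  push_cast
  ring

/-- the telescope -/
lemma tele (G : ℤ → ℝ) (A B : ℤ) (h : A ≤ B) : ∑ m ∈ Ioc A B, G (m + 1) - ∑ m ∈ Ioc A B, G m = G (B + 1) - G (A + 1) := by
  induction B, h using Int.leInduction with
  | base => simp
  | succ n hn ih =>
    have e : Ioc A (n + 1) = insert (n + 1) (Ioc A n) := by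
      ext x
      rw [mem_insert, mem_Ioc, mem_Ioc]
      omega
    rw [e, sum_insert (by rw [mem_Ioc]; omega), sum_insert (by rw [mem_Ioc]; omega)]
    linarith

/-- shifts of a sum -/
lemma shift (G : ℤ → ℝ) (hG : ∀ m, |G m| ≤ 1) (A B : ℤ) (h : A ≤ B) (k : ℕ) :
    |∑ m ∈ Ioc A B, G (m + k) - ∑ m ∈ Ioc A B, G m| ≤ 2 * k := by
  induction k with
  | zero => simp
  | succ k ih =>
    have e := tele (fun m => G (m + k)) A B h
    have e1 : ∑ m ∈ Ioc A B, G (m + (k + 1 : ℕ)) = ∑ m ∈ Ioc A B, G (m + 1 + k) := by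
      apply sum_congr rfl
      intro m _
      congr 1
      push_cast
      ring
    rw [e1]
    have e2 : ∑ m ∈ Ioc A B, G (m + 1 + k) - ∑ m ∈ Ioc A B, G m =
        (G (B + 1 + k) - G (A + 1 + k)) + (∑ m ∈ Ioc A B, G (m + k) - ∑ m ∈ Ioc A B, G m) := by
      linarith
    rw [e2]
    have a1 := hG (B + 1 + k)
    have a2 := hG (A + 1 + k)
    rw [abs_le] at a1 a2 ih ⊢
    push_cast
    constructor <;> linarith [a1.1, a1.2, a2.1, a2.2, ih.1, ih.2]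

/-- a long sum as a sum of short sums -/
lemma long_short (J : ℕ) (hJ : 2 ≤ J) (A B : ℤ) (h : A ≤ B) :
    |∑ m ∈ Ioc A B, Lz m| ≤ 2 / J * ∑ m ∈ Ioc A B, |AJ J m| + 4 * J := by
  have hJ0 : (2 : ℝ) ≤ J := by exact_mod_cast hJ
  have h1 : ∑ m ∈ Ioc A B, AJ J m = ∑ j ∈ Ioo (0 : ℤ) J, ∑ m ∈ Ioc A B, Lz (m + j) := by
    unfold AJ
    rw [sum_comm]
  have h2 : |∑ m ∈ Ioc A B, AJ J m - ((J : ℝ) - 1) * ∑ m ∈ Ioc A B, Lz m| ≤ ((J : ℝ) - 1) * (2 * J) := by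
    have e1 : ((J : ℝ) - 1) * ∑ m ∈ Ioc A B, Lz m = ∑ j ∈ Ioo (0 : ℤ) J, ∑ m ∈ Ioc A B, Lz m := by
      rw [sum_const, Int.card_Ioo, nsmul_eq_mul]
      congr 1
      have : ((((J : ℤ) - 0 - 1).toNat : ℕ) : ℤ) = (J : ℤ) - 1 := by omega
      have : ((((J : ℤ) - 0 - 1).toNat : ℕ) : ℝ) = (J : ℝ) - 1 := by exact_mod_cast this
      exact this.symm
    rw [e1, h1, ← sum_sub_distrib]
    refine (abs_sum_le_sum_abs _ _).trans ?_
    have e2 : ∀ j ∈ Ioo (0 : ℤ) J, |∑ m ∈ Ioc A B, Lz (m + j) - ∑ m ∈ Ioc A B, Lz m| ≤ 2 * J := by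
      intro j hj
      rw [mem_Ioo] at hj
      have := shift Lz Lz_abs A B h j.toNat
      have e3 : ((j.toNat : ℕ) : ℤ) = j := by omega
      rw [e3] at this
      have e4 : ((j.toNat : ℕ) : ℝ) ≤ J := by exact_mod_cast (by omega : j.toNat ≤ J)
      linarith
    refine (sum_le_sum e2).trans (le_of_eq ?_)
    rw [sum_const, Int.card_Ioo, nsmul_eq_mul]
    congr 1
    have : ((((J : ℤ) - 0 - 1).toNat : ℕ) : ℤ) = (J : ℤ) - 1 := by omega
    exact_mod_cast this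
  have h3 : ((J : ℝ) - 1) * |∑ m ∈ Ioc A B, Lz m| ≤ ∑ m ∈ Ioc A B, |AJ J m| + ((J : ℝ) - 1) * (2 * J) := by
    have e1 : ((J : ℝ) - 1) * |∑ m ∈ Ioc A B, Lz m| = |((J : ℝ) - 1) * ∑ m ∈ Ioc A B, Lz m| := by
      rw [abs_mul, abs_of_nonneg (by linarith : (0 : ℝ) ≤ (J : ℝ) - 1)]
    have e2 : |∑ m ∈ Ioc A B, AJ J m| ≤ ∑ m ∈ Ioc A B, |AJ J m| := abs_sum_le_sum_abs _ _
    have e3 := abs_sub_abs_le_abs_sub (((J : ℝ) - 1) * ∑ m ∈ Ioc A B, Lz m) (∑ m ∈ Ioc A B, AJ J m)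
    rw [abs_sub_comm] at e3
    rw [e1]
    linarith
  have hs0 : 0 ≤ ∑ m ∈ Ioc A B, |AJ J m| := sum_nonneg fun _ _ => abs_nonneg _
  have hL0 : 0 ≤ |∑ m ∈ Ioc A B, Lz m| := abs_nonneg _
  have h4 : (J : ℝ) / 2 * |∑ m ∈ Ioc A B, Lz m| ≤ ∑ m ∈ Ioc A B, |AJ J m| + J / 2 * (4 * J) := by
    nlinarith
  have hJp : (0 : ℝ) < J / 2 := by linarith
  have h5 : (J : ℝ) / 2 * (2 / J * ∑ m ∈ Ioc A B, |AJ J m| + 4 * J) = ∑ m ∈ Ioc A B, |AJ J m| + J / 2 * (4 * J) := by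
    field_simp
  rw [← h5] at h4
  exact le_of_mul_le_mul_left h4 hJp

end Pool.Agent.Helper34.NQ
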