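import Mathlib
import Pool.Agent.Helper34.NQ.B3

set_option autoImplicit false

/-! The block theorem. -/

namespace Pool.Agent.Helper34.NQ
open Finset

/-- the runs -/
lemma run_bounds {a : ℕ} {b g : ℤ} {X H Q q K x : ℕ} (hQ : 1 ≤ Q) (hq1 : Q ≤ q) (hbX : b.natAbs + K + 1 ≤ X) (ha : 1 ≤ a)
    (hH : H ≤ X) (hg : |g| ≤ K * H) (hx : x ∈ Ioc X (2 * X)) {m : ℤ} (hm : m ∈ run (fq a b g x) H q) :
    m ∈ Icc (1 : ℤ) (((4 * a + 2 * b.natAbs + K + 1) * X ^ 2 / Q : ℕ) : ℤ) := by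
  rw [mem_Ioc] at hx
  rw [mem_run (by omega)] at hm
  have hxX : (X : ℤ) < x := by exact_mod_cast hx.1
  have hxX2 : (x : ℤ) ≤ 2 * X := by exact_mod_cast hx.2
  have hX0 : (1 : ℤ) ≤ X := by omega
  have hHX : (H : ℤ) ≤ X := by exact_mod_cast hH
  have ha1 : (1 : ℤ) ≤ a := by exact_mod_cast ha
  have hK0 : (0 : ℤ) ≤ K := by positivity
  obtain ⟨β, hβ⟩ : ∃ β : ℤ, β = b.natAbs := ⟨_, rfl⟩
  have hβ0 : 0 ≤ β := by rw [hβ]; positivity
  have hbb : |b| = β := by rw [hβ]; exact Int.abs_eq_natAbs b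
  have hb2 := abs_le.1 hbb.le
  have hXb : β + K + 1 ≤ X := by rw [hβ]; exact_mod_cast hbX
  have hg2 := abs_le.1 hg
  have hKH : (K : ℤ) * H ≤ K * X := mul_le_mul_of_nonneg_left hHX hK0
  have hf0 : 0 ≤ fq a b g x := by
    unfold fq
    have e1 : (x : ℤ) ^ 2 ≤ a * (x : ℤ) ^ 2 := le_mul_of_one_le_left (by positivity) ha1
    have e2 : -(β * x) ≤ b * x := by nlinarith [hb2.1]
    have e3 : (β + K) * x ≤ (x : ℤ) * x := mul_le_mul_of_nonneg_right (by linarith) (by linarith)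
    have e4 : (K : ℤ) * X ≤ K * x := mul_le_mul_of_nonneg_left hxX.le hK0
    nlinarith [hg2.1]
  have hf1 : fq a b g x + H ≤ (4 * a + 2 * β + K + 1) * (X : ℤ) ^ 2 := by
    unfold fq
    have e1 : (a : ℤ) * (x : ℤ) ^ 2 ≤ a * (2 * X) ^ 2 := by
      apply mul_le_mul_of_nonneg_left _ (by linarith)
      exact pow_le_pow_left₀ (by linarith) hxX2 2
    have e2 : b * x ≤ β * (2 * X) := by
      calc b * x ≤ β * x := mul_le_mul_of_nonneg_right hb2.2 (by linarith)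
        _ ≤ β * (2 * X) := mul_le_mul_of_nonneg_left hxX2 hβ0
    have e3 : (X : ℤ) ≤ X ^ 2 := by nlinarith
    have e4 : β * (X : ℤ) ≤ β * X ^ 2 := mul_le_mul_of_nonneg_left e3 hβ0
    have e5 : (K : ℤ) * X ≤ K * X ^ 2 := mul_le_mul_of_nonneg_left e3 hK0
    nlinarith [hg2.2]
  have hq0 : (0 : ℤ) < q := by exact_mod_cast (by omega : 0 < q)
  have hm1 : 1 ≤ m := by
    by_contra hcon
    have : m ≤ 0 := by omega
    have : (q : ℤ) * m ≤ 0 := mul_nonpos_of_nonneg_of_nonpos hq0.le this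
    linarith [hm.1]
  rw [mem_Icc]
  refine ⟨hm1, ?_⟩
  rw [Int.natCast_ediv, Int.le_ediv_iff_mul_le (by exact_mod_cast hQ)]
  have e1 : m * Q ≤ q * m := by
    have : (Q : ℤ) ≤ q := by exact_mod_cast hq1
    nlinarith
  push_cast
  rw [hbb]
  linarith [hm.2]

/-- the block theorem -/
theorem blockQ (a : ℕ) (ha : 1 ≤ a) (b : ℤ) (K : ℕ) (η : ℝ) (hη : 0 < η) : ∃ C : ℝ, 1 ≤ C ∧ ∃ X₀ : ℕ, ∀ X : ℕ, X₀ ≤ X →
    ∀ H Q : ℕ, 1 ≤ Q → C * Q ≤ H → H ≤ X → ∀ P : Finset ℕ, (∀ q ∈ P, Squarefree q ∧ Q ≤ q ∧ q ≤ 2 * Q) →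
      (X : ℝ) ≤ P.card * H → ∀ g : ℤ, |g| ≤ K * H →
      ∑ x ∈ Ioc X (2 * X), ∑ q ∈ P, |∑ m ∈ run (fq a b g x) H q, Lz m| ≤ η * (X * (P.card * ((H : ℝ) / Q))) := by
  classical
  obtain ⟨c1, hc1⟩ : ∃ c : ℝ, c = 202 * ((8 * a + b.natAbs ^ 2 + 4 * a * K : ℕ) : ℝ) := ⟨_, rfl⟩
  obtain ⟨c2, hc2⟩ : ∃ c : ℕ, c = 4 * a + 2 * b.natAbs + K + 1 := ⟨_, rfl⟩
  have hc10 : 0 ≤ c1 := by rw [hc1]; positivity
  have hc21 : 1 ≤ c2 := by omega
  have hc20 : (1 : ℝ) ≤ c2 := by exact_mod_cast hc21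
  obtain ⟨δ, hδ⟩ : ∃ δ : ℝ, δ = η ^ 2 / (32 * (1 + c1) * c2) := ⟨_, rfl⟩
  have hδ0 : 0 < δ := by rw [hδ]; positivity
  obtain ⟨J, M₀, hJ2, hJ⟩ := short δ hδ0
  have hJ0 : (2 : ℝ) ≤ J := by exact_mod_cast hJ2
  refine ⟨8 * J / η + 1, by have : 0 ≤ 8 * J / η := by positivity
                            linarith, M₀ + b.natAbs + K + 1, ?_⟩
  intro X hX H Q hQ hCQ hH P hP hXP g hg
  have hX0 : (0 : ℝ) < X := by exact_mod_cast (by omega : 0 < X)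
  have hQ0 : (0 : ℝ) < Q := by exact_mod_cast hQ
  have hQH' : (Q : ℝ) ≤ H := by
    have : 0 ≤ 8 * J / η * Q := by positivity
    linarith
  have hQH : Q ≤ H := by exact_mod_cast hQH'
  have hH0 : (0 : ℝ) < H := by linarith
  obtain ⟨M, hM⟩ : ∃ M : ℕ, M = c2 * X ^ 2 / Q := ⟨_, rfl⟩
  have hMM₀ : M₀ ≤ M := by
    rw [hM]
    have e1 : X * Q ≤ c2 * X ^ 2 := by
      calc X * Q ≤ X * X := Nat.mul_le_mul_left _ (by omega)
        _ = 1 * X ^ 2 := by ring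
        _ ≤ c2 * X ^ 2 := Nat.mul_le_mul_right _ hc21
    have := (Nat.le_div_iff_mul_le (by omega : 0 < Q)).2 e1
    omega
  have hMle : (M : ℝ) ≤ c2 * X ^ 2 / Q := by
    rw [hM]
    refine Nat.cast_div_le.trans (le_of_eq ?_)
    push_cast
    ring
  have hA := hJ M hMM₀
  -- the sum over the runs
  have hsub : ∀ x ∈ Ioc X (2 * X), ∀ q ∈ P, run (fq a b g x) H q ⊆ Icc (1 : ℤ) M := by
    intro x hx q hq m hm
    rw [hM, hc2]
    exact run_bounds hQ (hP q hq).2.1 (by omega) ha hH hg hx hm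
  have h1 : ∑ x ∈ Ioc X (2 * X), ∑ q ∈ P, |∑ m ∈ run (fq a b g x) H q, Lz m| ≤
      2 / J * ∑ x ∈ Ioc X (2 * X), ∑ q ∈ P, ∑ m ∈ run (fq a b g x) H q, |AJ J m| + 4 * J * (X * P.card) := by
    have e1 : ∀ x ∈ Ioc X (2 * X), ∑ q ∈ P, |∑ m ∈ run (fq a b g x) H q, Lz m| ≤
        2 / J * ∑ q ∈ P, ∑ m ∈ run (fq a b g x) H q, |AJ J m| + P.card * (4 * J) := by
      intro x _
      have e2 : ∀ q ∈ P, |∑ m ∈ run (fq a b g x) H q, Lz m| ≤ 2 / J * ∑ m ∈ run (fq a b g x) H q, |AJ J m| + 4 * J := by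
        intro q hq
        apply long_short J hJ2
        exact Int.ediv_le_ediv (by exact_mod_cast (hP q hq).1.ne_zero.bot_lt) (by omega)
      refine (sum_le_sum e2).trans (le_of_eq ?_)
      rw [sum_add_distrib, ← mul_sum, sum_const, nsmul_eq_mul]
    refine (sum_le_sum e1).trans (le_of_eq ?_)
    rw [sum_add_distrib, ← mul_sum, sum_const, nsmul_eq_mul, Nat.card_Ioc]
    have : ((2 * X - X : ℕ) : ℝ) = X := by
      congr 1
      omega
    rw [this]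
    ring
  have h2 : ∑ x ∈ Ioc X (2 * X), ∑ q ∈ P, ∑ m ∈ run (fq a b g x) H q, |AJ J m| =
      ∑ m ∈ Icc (1 : ℤ) M, (∑ q ∈ P, wq a b g X H q m) * |AJ J m| := by
    have e1 : ∀ x ∈ Ioc X (2 * X), ∑ q ∈ P, ∑ m ∈ run (fq a b g x) H q, |AJ J m| =
        ∑ q ∈ P, ∑ m ∈ Icc (1 : ℤ) M, (if m ∈ run (fq a b g x) H q then (1 : ℝ) else 0) * |AJ J m| := by
      intro x hx
      apply sum_congr rfl
      intro q hq
      rw [← sum_filter_add_sum_filter_not (Icc (1 : ℤ) M) (fun m => m ∈ run (fq a b g x) H q)]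
      have e2 : (Icc (1 : ℤ) M).filter (fun m => m ∈ run (fq a b g x) H q) = run (fq a b g x) H q := by
        ext m
        rw [mem_filter]
        exact ⟨fun h => h.2, fun h => ⟨hsub x hx q hq h, h⟩⟩
      have e3 : ∑ m ∈ (Icc (1 : ℤ) M).filter (fun m => ¬ m ∈ run (fq a b g x) H q),
          (if m ∈ run (fq a b g x) H q then (1 : ℝ) else 0) * |AJ J m| = 0 := by
        apply sum_eq_zero
        intro m hm
        rw [mem_filter] at hm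
        rw [if_neg hm.2, zero_mul]
      rw [e3, add_zero, e2]
      apply sum_congr rfl
      intro m hm
      rw [if_pos hm, one_mul]
    rw [sum_congr rfl e1, sum_comm]
    have e4 : ∀ q ∈ P, ∑ x ∈ Ioc X (2 * X), ∑ m ∈ Icc (1 : ℤ) M, (if m ∈ run (fq a b g x) H q then (1 : ℝ) else 0) * |AJ J m| =
        ∑ m ∈ Icc (1 : ℤ) M, wq a b g X H q m * |AJ J m| := by
      intro q _
      rw [sum_comm]
      apply sum_congr rfl
      intro m _
      unfold wq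
      rw [sum_mul]
    rw [sum_congr rfl e4, sum_comm]
    apply sum_congr rfl
    intro m _
    rw [sum_mul]
  -- the inequality of Cauchy and Schwarz
  have h3 : (∑ m ∈ Icc (1 : ℤ) M, (∑ q ∈ P, wq a b g X H q m) * |AJ J m|) ^ 2 ≤
      (∑ m ∈ Icc (1 : ℤ) M, (∑ q ∈ P, wq a b g X H q m) ^ 2) * ∑ m ∈ Icc (1 : ℤ) M, |AJ J m| ^ 2 :=
    sum_mul_sq_le_sq_mul_sq _ _ _
  have h4 : ∑ m ∈ Icc (1 : ℤ) M, |AJ J m| ^ 2 ≤ J * (δ * J * M) := by
    refine le_trans ?_ (mul_le_mul_of_nonneg_left hA (Nat.cast_nonneg J))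
    rw [mul_sum]
    apply sum_le_sum
    intro m _
    rw [sq]
    exact mul_le_mul_of_nonneg_right (AJ_abs J m) (abs_nonneg _)
  have h5 : ∑ m ∈ Icc (1 : ℤ) M, (∑ q ∈ P, wq a b g X H q m) ^ 2 ≤
      (2 * ((H : ℝ) / Q)) * ((1 + c1) * (P.card ^ 2 * H)) := by
    have key := second (M : ℤ) ha P hP hQ (b := b) (by rw [Int.abs_eq_natAbs]; exact_mod_cast (by omega : b.natAbs ≤ X))
      (by omega : 1 ≤ X) hQH hH hg
    refine key.trans ?_
    apply mul_le_mul_of_nonneg_left _ (by positivity)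
    rw [← hc1]
    have e1 : (P.card : ℝ) * X ≤ P.card * (P.card * H) := mul_le_mul_of_nonneg_left hXP (Nat.cast_nonneg _)
    nlinarith
  have h6 : (∑ m ∈ Icc (1 : ℤ) M, (∑ q ∈ P, wq a b g X H q m) * |AJ J m|) ^ 2 ≤ (η / 4 * (J * (X * (P.card * ((H : ℝ) / Q))))) ^ 2 := by
    have e0 : 0 ≤ ∑ m ∈ Icc (1 : ℤ) M, |AJ J m| ^ 2 := sum_nonneg fun _ _ => by positivity
    calc _ ≤ _ := h3
      _ ≤ ((2 * ((H : ℝ) / Q)) * ((1 + c1) * (P.card ^ 2 * H))) * (J * (δ * J * M)) :=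
          mul_le_mul h5 h4 e0 (by positivity)
      _ ≤ ((2 * ((H : ℝ) / Q)) * ((1 + c1) * (P.card ^ 2 * H))) * (J * (δ * J * (c2 * X ^ 2 / Q))) := by gcongr
      _ = (η / 4 * (J * (X * (P.card * ((H : ℝ) / Q))))) ^ 2 := by
          rw [hδ]
          have : (1 + c1) ≠ 0 := by positivity
          have : (c2 : ℝ) ≠ 0 := by positivity
          field_simp
          ring
  have h7 : ∑ m ∈ Icc (1 : ℤ) M, (∑ q ∈ P, wq a b g X H q m) * |AJ J m| ≤ η / 4 * (J * (X * (P.card * ((H : ℝ) / Q)))) := by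
    exact le_of_sq_le_sq h6 (by positivity)
  rw [h2] at h1
  refine h1.trans ?_
  have h8 : 2 / (J : ℝ) * ∑ m ∈ Icc (1 : ℤ) M, (∑ q ∈ P, wq a b g X H q m) * |AJ J m| ≤ η / 2 * (X * (P.card * ((H : ℝ) / Q))) := by
    calc 2 / (J : ℝ) * ∑ m ∈ Icc (1 : ℤ) M, (∑ q ∈ P, wq a b g X H q m) * |AJ J m|
        ≤ 2 / J * (η / 4 * (J * (X * (P.card * ((H : ℝ) / Q))))) := by gcongr
      _ = η / 2 * (X * (P.card * ((H : ℝ) / Q))) := by
          field_simp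
          ring
  have h9 : 4 * (J : ℝ) * (X * P.card) ≤ η / 2 * (X * (P.card * ((H : ℝ) / Q))) := by
    have e1 : 8 * (J : ℝ) ≤ η * (H / Q) := by
      rw [← mul_div_assoc, le_div_iff₀ hQ0]
      have : 8 * J / η * Q ≤ H := by linarith
      rw [div_mul_eq_mul_div, div_le_iff₀ hη] at this
      linarith
    have e2 : 0 ≤ (X : ℝ) * P.card := by positivity
    calc 4 * (J : ℝ) * (X * P.card) = (8 * J) * ((X * P.card) / 2) := by ring
      _ ≤ (η * (H / Q)) * ((X * P.card) / 2) := by gcongr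
      _ = _ := by ring
  linarith

end Pool.Agent.Helper34.NQ
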