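import Mathlib
import Pool.Agent.Helper34.NQ.B4
import Pool.Agent.Helper34.SR.A7

set_option autoImplicit false

/-! The parameters, and the counting in one window. -/

namespace Pool.Agent.Helper34.NQ
open Finset Filter Topology
open Pool.Agent.Helper34.SR (blk mem_blk blk_disj RP_blk RP_union rich_many omp omp_eq)
open Pool.Agent.E8helper16.SL (RP RP_nonneg)
open Pool.Agent.Helper34.SW (lr lr_abs lr_div)

/-- the parameters -/
lemma paramsQ (C1 : ℝ) (hC1 : 1 ≤ C1) : ∃ C : ℝ, 4 ≤ C ∧ ∃ X₀ : ℕ, ∀ X : ℕ, X₀ ≤ X →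
    ∀ (H : ℕ) (R : ℝ), C ≤ R → R * √(X * Real.log X) ≤ H → H ≤ X →
    ∃ I : Finset ℕ, (∀ i ∈ I, X ≤ (2 ^ i) ^ 4 ∧ (2 : ℝ) ^ (i + 1) * (4 * C1) ≤ H ∧ (X : ℝ) ≤ (blk i).card * H) ∧
      Real.log R / (192 * Real.log X) ≤ RP (I.biUnion blk) := by
  obtain ⟨i₁, hi₁, hrich⟩ := rich_many
  have hCC : 0 ≤ 1024 * C1 ^ 2 := by positivity
  refine ⟨1024 * C1 ^ 2 + 4, by linarith, ?_⟩
  have hev : ∀ᶠ X : ℕ in atTop, ((2 : ℝ) ^ i₁) ^ 4 ≤ X ∧ 1 ≤ Real.log (X : ℝ) :=
    (tendsto_natCast_atTop_atTop.eventually_ge_atTop _).and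
      ((Real.tendsto_log_atTop.comp tendsto_natCast_atTop_atTop).eventually_ge_atTop 1)
  obtain ⟨X₀, hX₀⟩ := eventually_atTop.1 hev
  refine ⟨X₀ + 2, ?_⟩
  intro X hX H R hR hRH hHX
  obtain ⟨hx4, hl1⟩ := hX₀ X (by omega)
  obtain ⟨l, hld⟩ : ∃ l, l = Real.log (X : ℝ) := ⟨_, rfl⟩
  rw [← hld] at hl1 hRH ⊢
  have hX0 : (1 : ℝ) ≤ X := by exact_mod_cast (by omega : 1 ≤ X)
  have hR4 : 4 ≤ R := by
    have : 0 ≤ 1024 * C1 ^ 2 := by positivity
    linarith
  have hH0 : (0 : ℝ) < H := lt_of_lt_of_le (mul_pos (by linarith) (Real.sqrt_pos.2 (by positivity))) hRH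
  have hHXr : (H : ℝ) ≤ X := by exact_mod_cast hHX
  have hHsq : R ^ 2 * (X * l) ≤ (H : ℝ) ^ 2 := by
    have := pow_le_pow_left₀ (by positivity) hRH 2
    rwa [mul_pow, Real.sq_sqrt (by positivity)] at this
  obtain ⟨t, ht⟩ : ∃ t, t = √√(X : ℝ) := ⟨_, rfl⟩
  have ht0 : 0 < t := by rw [ht]; positivity
  have ht2 : t ^ 2 = √(X : ℝ) := by rw [ht, Real.sq_sqrt (Real.sqrt_nonneg _)]
  have ht4 : t ^ 4 = (X : ℝ) := by
    calc t ^ 4 = (t ^ 2) ^ 2 := by ring
      _ = (X : ℝ) := by rw [ht2, Real.sq_sqrt (by positivity)]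
  have ht1 : (2 : ℝ) ^ i₁ ≤ t := by
    have : ((2 : ℝ) ^ i₁) ^ 4 ≤ t ^ 4 := by rw [ht4]; exact hx4
    exact le_of_pow_le_pow_left₀ (by norm_num) ht0.le this
  obtain ⟨Z0, hZ0⟩ : ∃ Z0, Z0 = 32 * (X * l) / H + t := ⟨_, rfl⟩
  have hZt : t ≤ Z0 := by
    rw [hZ0]
    have : 0 ≤ 32 * (X * l) / H := by positivity
    linarith
  have hZ1 : 1 ≤ Z0 := (one_le_pow₀ (by norm_num : (1 : ℝ) ≤ 2)).trans (ht1.trans hZt)
  obtain ⟨n, hn1, hn2⟩ := exists_nat_pow_near hZ1 (by norm_num : (1 : ℝ) < 2)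
  have hi0 : i₁ < n + 1 := by
    have : (2 : ℝ) ^ i₁ < 2 ^ (n + 1) := (ht1.trans hZt).trans_lt hn2
    exact (pow_lt_pow_iff_right₀ (by norm_num)).1 this
  have hy0 : 2 ^ (n + 1) ≤ 2 * Z0 := by rw [pow_succ]; linarith
  obtain ⟨y, hy⟩ : ∃ y, y = (H : ℝ) / (8 * C1 * 2 ^ (n + 1)) := ⟨_, rfl⟩
  have hRX : R ≤ t ^ 2 := by
    rw [ht2]
    apply Real.le_sqrt_of_sq_le
    have e1 : R ^ 2 * X ≤ X * X := by
      calc R ^ 2 * X ≤ R ^ 2 * (X * l) := by
            apply mul_le_mul_of_nonneg_left _ (by positivity)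
            nlinarith
        _ ≤ (H : ℝ) ^ 2 := hHsq
        _ ≤ X * X := by rw [sq]; gcongr
    exact le_of_mul_le_mul_right e1 (by linarith)
  have hyR : R ≤ y := by
    rw [hy, le_div_iff₀ (by positivity)]
    have e1 : R * (8 * C1 * 2 ^ (n + 1)) ≤ R * (8 * C1 * (2 * Z0)) := by gcongr
    refine e1.trans ?_
    have e2 : R * (8 * C1 * (2 * Z0)) = (512 * C1 * R * (X * l)) / H + 16 * C1 * R * t := by
      rw [hZ0]
      ring
    rw [e2]
    have e3 : (512 * C1 * R * (X * l)) / H ≤ H / 2 := by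
      rw [div_le_iff₀ hH0]
      have d1 : 1024 * C1 ≤ R := by nlinarith
      calc 512 * C1 * R * (X * l) = (1024 * C1) * (R * (X * l)) / 2 := by ring
        _ ≤ R * (R * (X * l)) / 2 := by gcongr
        _ = R ^ 2 * (X * l) / 2 := by ring
        _ ≤ (H : ℝ) ^ 2 / 2 := by gcongr
        _ = H / 2 * H := by ring
    have e4 : 16 * C1 * R * t ≤ H / 2 := by
      have d1 : R * t ^ 2 ≤ H := by
        calc R * t ^ 2 = R * √(X : ℝ) := by rw [ht2]
          _ ≤ R * √(X * l) := by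
              apply mul_le_mul_of_nonneg_left _ (by linarith)
              apply Real.sqrt_le_sqrt
              nlinarith
          _ ≤ H := hRH
      have d2 : 32 * C1 ≤ t := by
        have : (32 * C1) ^ 2 ≤ t ^ 2 := by
          calc (32 * C1) ^ 2 = 1024 * C1 ^ 2 := by ring
            _ ≤ R := by linarith
            _ ≤ t ^ 2 := hRX
        exact le_of_sq_le_sq this ht0.le
      calc 16 * C1 * R * t = (32 * C1) * (R * t) / 2 := by ring
        _ ≤ t * (R * t) / 2 := by gcongr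
        _ = R * t ^ 2 / 2 := by ring
        _ ≤ H / 2 := by linarith
    linarith
  obtain ⟨J, hJ1, hJ2⟩ := exists_nat_pow_near (by linarith : 1 ≤ y) (by norm_num : (1 : ℝ) < 4)
  have hJpos : 1 ≤ J := by
    rcases Nat.eq_zero_or_pos J with e | e
    · rw [e] at hJ2
      norm_num at hJ2
      linarith
    · exact e
  obtain ⟨I, hIc, hI⟩ := hrich (n + 1) (by omega) J
  have hpr : ∀ i ∈ I, (2 : ℝ) ^ (i + 1) * (4 * C1) ≤ H ∧ (i : ℝ) ≤ 2 * l ∧ Z0 ≤ (2 : ℝ) ^ i := by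
    intro i hi
    obtain ⟨⟨g1, g2⟩, g3⟩ := hI i hi
    have c1 : (2 : ℝ) ^ (i + 1) ≤ 2 ^ (n + 1 + 2 * J) := pow_le_pow_right₀ (by norm_num) (by omega)
    have c2 : (2 : ℝ) ^ (n + 1 + 2 * J) = 2 ^ (n + 1) * 4 ^ J := by
      rw [pow_add, pow_mul]
      norm_num
    have c3 : (2 : ℝ) ^ (i + 1) * (8 * C1) ≤ H := by
      calc (2 : ℝ) ^ (i + 1) * (8 * C1) ≤ 2 ^ (n + 1) * y * (8 * C1) := by
            rw [c2] at c1
            gcongr
            exact c1.trans (mul_le_mul_of_nonneg_left hJ1 (by positivity))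
        _ = H := by
            rw [hy]
            field_simp
    have c4 : (2 : ℝ) ^ (i + 1) * (4 * C1) ≤ H := by
      refine le_trans ?_ c3
      gcongr
      norm_num
    refine ⟨c4, ?_, hn2.le.trans (pow_le_pow_right₀ (by norm_num) g1)⟩
    have d1 : (2 : ℝ) ^ i ≤ X := by
      calc (2 : ℝ) ^ i ≤ 2 ^ (i + 1) * (4 * C1) := by
            rw [pow_succ]
            have : (0 : ℝ) < 2 ^ i := by positivity
            nlinarith
        _ ≤ H := c4
        _ ≤ X := hHXr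
    have d2 := Real.log_le_log (by positivity) d1
    rw [Real.log_pow, ← hld] at d2
    have d3 := Real.log_two_gt_d9
    have d4 : (0 : ℝ) ≤ i := Nat.cast_nonneg i
    nlinarith
  refine ⟨I, ?_, ?_⟩
  · intro i hi
    obtain ⟨c2, c3, c4⟩ := hpr i hi
    obtain ⟨⟨g1, g2⟩, g3⟩ := hI i hi
    refine ⟨?_, c2, ?_⟩
    · have d1 : t ≤ (2 : ℝ) ^ i := hZt.trans c4
      have d2 : t ^ 4 ≤ ((2 : ℝ) ^ i) ^ 4 := pow_le_pow_left₀ ht0.le d1 4
      rw [ht4] at d2
      exact_mod_cast d2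
    · have d1 : (2 : ℝ) ^ i ≤ 32 * l * (blk i).card := by
        calc (2 : ℝ) ^ i ≤ 16 * ((blk i).card * i) := g3
          _ ≤ 16 * ((blk i).card * (2 * l)) := by gcongr
          _ = 32 * l * (blk i).card := by ring
      have d2 : 32 * (X * l) / H ≤ 32 * l * (blk i).card := by
        refine le_trans ?_ (c4.trans d1)
        rw [hZ0]
        linarith
      rw [div_le_iff₀ hH0] at d2
      have d3 : (32 * l) * (X : ℝ) ≤ (32 * l) * ((blk i).card * H) := by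
        calc (32 * l) * (X : ℝ) = 32 * (X * l) := by ring
          _ ≤ _ := d2
          _ = _ := by ring
      exact le_of_mul_le_mul_left d3 (by positivity)
  · rw [RP_union]
    have h1 : ∀ i ∈ I, 1 / (64 * l) ≤ RP (blk i) := by
      intro i hi
      obtain ⟨c2, c3, c4⟩ := hpr i hi
      obtain ⟨⟨g1, g2⟩, g3⟩ := hI i hi
      refine le_trans ?_ (RP_blk i)
      rw [div_le_div_iff₀ (by positivity) (by positivity), one_mul, pow_succ]
      calc (2 : ℝ) ^ i * 2 ≤ (16 * ((blk i).card * i)) * 2 := by gcongr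
        _ ≤ (16 * ((blk i).card * (2 * l))) * 2 := by gcongr
        _ = (blk i).card * (64 * l) := by ring
    have h2 := sum_le_sum h1
    rw [sum_const, hIc, nsmul_eq_mul] at h2
    refine le_trans ?_ h2
    have h3 : Real.log R ≤ 3 * J := by
      have e1 : R ≤ 4 ^ (J + 1) := hyR.trans hJ2.le
      have e2 := Real.log_le_log (by linarith) e1
      rw [Real.log_pow] at e2
      have e3 : Real.log 4 = 2 * Real.log 2 := by
        rw [show (4 : ℝ) = 2 ^ 2 by norm_num, Real.log_pow]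
        push_cast; ring
      have e4 := Real.log_two_lt_d9
      have e5 : (1 : ℝ) ≤ J := by exact_mod_cast hJpos
      rw [e3] at e2
      push_cast at e2
      nlinarith
    rw [mul_one_div, div_le_div_iff₀ (by positivity) (by positivity)]
    calc Real.log R * (64 * l) ≤ (3 * J) * (64 * l) := by gcongr
      _ = J * (192 * l) := by ring

/-- the Liouville function -/
def lam (n : ℤ) : ℤ := (-1) ^ ArithmeticFunction.cardFactors n.natAbs

/-- the number of the large prime factors -/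
lemma omega_le {P : Finset ℕ} {X c2 n : ℕ} (hP : ∀ q ∈ P, q.Prime ∧ X ≤ q ^ 4) (hn : 1 ≤ n) (hn2 : n ≤ c2 * X ^ 2)
    (hX : c2 ^ 4 < X ^ 2) : omp P n ≤ 9 := by
  have hX0 : 1 < X := by
    by_contra hcon
    push Not at hcon
    have hc : 1 ≤ c2 := by
      rcases Nat.eq_zero_or_pos c2 with e | e
      · rw [e, zero_mul] at hn2; omega
      · exact e
    have e1 : 1 ≤ c2 ^ 4 := Nat.one_le_pow _ _ hc
    have e2 : X ^ 2 ≤ 1 ^ 2 := Nat.pow_le_pow_left hcon 2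
    omega
  by_contra hcon
  push Not at hcon
  unfold omp at hcon
  obtain ⟨T, hT⟩ : ∃ T, T = P.filter (fun q => q ∣ n) := ⟨_, rfl⟩
  rw [← hT] at hcon
  have h1 : ∏ q ∈ T, q ∣ n := by
    apply Finset.prod_primes_dvd
    · intro q hq
      rw [hT, mem_filter] at hq
      exact (hP q hq.1).1.prime
    · intro q hq
      rw [hT, mem_filter] at hq
      exact hq.2
  have h2 : (∏ q ∈ T, q) ^ 4 ≤ n ^ 4 := Nat.pow_le_pow_left (Nat.le_of_dvd hn h1) 4
  have h3 : X ^ T.card ≤ (∏ q ∈ T, q) ^ 4 := by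
    rw [← prod_pow, ← prod_const]
    apply prod_le_prod' 
    intro q hq
    rw [hT, mem_filter] at hq
    exact (hP q hq.1).2
  have h4 : X ^ 10 ≤ X ^ T.card := Nat.pow_le_pow_right (by omega) hcon
  have h5 : n ^ 4 ≤ (c2 * X ^ 2) ^ 4 := Nat.pow_le_pow_left hn2 4
  have h6 : X ^ 10 ≤ c2 ^ 4 * X ^ 8 := by
    calc X ^ 10 ≤ (c2 * X ^ 2) ^ 4 := h4.trans (h3.trans (h2.trans h5))
      _ = c2 ^ 4 * X ^ 8 := by ring
  have h7 : X ^ 10 = X ^ 2 * X ^ 8 := by ring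
  rw [h7] at h6
  have := Nat.le_of_mul_le_mul_right h6 (by positivity)
  omega

end Pool.Agent.Helper34.NQ
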