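import Mathlib
import Pool.Agent.Helper34.NQ.B5

set_option autoImplicit false

/-! Both signs in almost all windows next to the values of a quadratic polynomial. -/

namespace Pool.Agent.Helper34.NQ
open Finset Filter Topology
open Pool.Agent.Helper34.SR (blk mem_blk blk_disj RP_blk RP_union rich_many omp omp_eq)
open Pool.Agent.E8helper16.SL (RP RP_nonneg)
open Pool.Agent.Helper34.SW (lr lr_abs lr_div)

/-- the size of the values -/
lemma f_bounds {a : ℕ} {b g : ℤ} {X H K x : ℕ} (hbX : b.natAbs + K + 1 ≤ X) (ha : 1 ≤ a)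
    (hH : H ≤ X) (hg : |g| ≤ K * H) (hx : x ∈ Ioc X (2 * X)) :
    0 ≤ fq a b g x ∧ fq a b g x + H ≤ ((4 * a + 2 * b.natAbs + K + 1 : ℕ) : ℤ) * (X : ℤ) ^ 2 := by
  rw [mem_Ioc] at hx
  have hxX : (X : ℤ) < x := by exact_mod_cast hx.1
  have hxX2 : (x : ℤ) ≤ 2 * X := by exact_mod_cast hx.2
  have hX0 : (1 : ℤ) ≤ X := by omega
  have hHX : (H : ℤ) ≤ X := by exact_mod_cast hH
  have ha1 : (1 : ℤ) ≤ a := by exact_mod_cast ha
  have hK0 : (0 : ℤ) ≤ K := by positivity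
  obtain ⟨β, hβ⟩ : ∃ β : ℤ, β = b.natAbs := ⟨_, rfl⟩
  have hβ0 : 0 ≤ β := by rw [hβ]; positivity
  have hbb : |b| = β := by rw [hβ]; exact Int.abs_eq_natAbs b
  have hb2 := abs_le.1 hbb.le
  have hXb : β + K + 1 ≤ X := by rw [hβ]; exact_mod_cast hbX
  have hg2 := abs_le.1 hg
  have hKH : (K : ℤ) * H ≤ K * X := mul_le_mul_of_nonneg_left hHX hK0
  have hf0 : 0 ≤ fq a b g x := by
    unfold fq
    have e1 : (x : ℤ) ^ 2 ≤ a * (x : ℤ) ^ 2 := le_mul_of_one_le_left (by positivity) ha1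
    have e2 : -(β * x) ≤ b * x := by nlinarith [hb2.1]
    have e3 : (β + K) * x ≤ (x : ℤ) * x := mul_le_mul_of_nonneg_right (by linarith) (by linarith)
    have e4 : (K : ℤ) * X ≤ K * x := mul_le_mul_of_nonneg_left hxX.le hK0
    nlinarith [hg2.1]
  refine ⟨hf0, ?_⟩
  push_cast
  rw [hbb]
  unfold fq
  have e1 : (a : ℤ) * (x : ℤ) ^ 2 ≤ a * (2 * X) ^ 2 := by
    apply mul_le_mul_of_nonneg_left _ (by linarith)
    exact pow_le_pow_left₀ (by linarith) hxX2 2
  have e2 : b * x ≤ β * (2 * X) := by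
    calc b * x ≤ β * x := mul_le_mul_of_nonneg_right hb2.2 (by linarith)
      _ ≤ β * (2 * X) := mul_le_mul_of_nonneg_left hxX2 hβ0
  have e3 : (X : ℤ) ≤ X ^ 2 := by nlinarith
  have e4 : β * (X : ℤ) ≤ β * X ^ 2 := mul_le_mul_of_nonneg_left e3 hβ0
  have e5 : (K : ℤ) * X ≤ K * X ^ 2 := mul_le_mul_of_nonneg_left e3 hK0
  nlinarith [hg2.2]

/-- the multiples of one prime -/
lemma one_prime {y : ℤ} (hy : 0 ≤ y) {H q : ℕ} (hq : q.Prime) (σ : ℤ) (hσ : σ = 1 ∨ σ = -1) :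
    ((run y H q).card : ℝ) - |∑ m ∈ run y H q, Lz m| ≤
      2 * (((Ioc y (y + H)).filter (fun n => (q ∣ n.natAbs) ∧ lam n = σ)).card : ℝ) := by
  classical
  have hq0 : (0 : ℤ) < q := by exact_mod_cast hq.pos
  have hpos : ∀ m ∈ run y H q, 1 ≤ m := by
    intro m hm
    rw [mem_run hq.one_lt.le] at hm
    by_contra hcon
    have : m ≤ 0 := by omega
    have : (q : ℤ) * m ≤ 0 := mul_nonpos_of_nonneg_of_nonpos hq0.le this
    linarith [hm.1]
  -- the points with the sign `-σ`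
  have h1 : ((run y H q).card : ℝ) - (σ : ℝ) * ∑ m ∈ run y H q, Lz m =
      2 * (((run y H q).filter (fun m => Lz m = -(σ : ℝ))).card : ℝ) := by
    have e1 : ((run y H q).card : ℝ) = ∑ m ∈ run y H q, (1 : ℝ) := by rw [sum_const, nsmul_eq_mul, mul_one]
    have e2 : (((run y H q).filter (fun m => Lz m = -(σ : ℝ))).card : ℝ) = ∑ m ∈ run y H q, if Lz m = -(σ : ℝ) then (1 : ℝ) else 0 := by
      rw [← sum_filter, sum_const, nsmul_eq_mul, mul_one]
    rw [e1, e2, mul_sum, mul_sum, ← sum_sub_distrib]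
    apply sum_congr rfl
    intro m hm
    have hm1 := hpos m hm
    have hL : Lz m = 1 ∨ Lz m = -1 := by
      unfold Lz lr
      rw [if_pos hm1]
      exact neg_one_pow_eq_or ℝ _
    rcases hσ with e | e <;> rcases hL with e' | e' <;> rw [e, e'] <;> norm_num
  have h2 : ((run y H q).filter (fun m => Lz m = -(σ : ℝ))).card ≤
      ((Ioc y (y + H)).filter (fun n => (q ∣ n.natAbs) ∧ lam n = σ)).card := by
    apply card_le_card_of_injOn (fun m => (q : ℤ) * m)
    · intro m hm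
      rw [mem_coe, mem_filter] at hm
      have hm1 := hpos m hm.1
      have hm2 := (mem_run hq.one_lt.le).1 hm.1
      rw [mem_coe, mem_filter, mem_Ioc]
      refine ⟨hm2, ?_, ?_⟩
      · rw [Int.natAbs_mul, Int.natAbs_natCast]
        exact dvd_mul_right _ _
      · have e1 : lam ((q : ℤ) * m) = - (-1) ^ ArithmeticFunction.cardFactors m.toNat := by
          unfold lam
          rw [Int.natAbs_mul, Int.natAbs_natCast, ArithmeticFunction.cardFactors_mul hq.ne_zero (by omega),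
            ArithmeticFunction.cardFactors_apply_prime hq, pow_add, pow_one]
          have : m.natAbs = m.toNat := by omega
          rw [this]
          ring
        have e2 : Lz m = (((-1) ^ ArithmeticFunction.cardFactors m.toNat : ℤ) : ℝ) := by
          unfold Lz lr
          rw [if_pos hm1]
          push_cast
          rfl
        rw [e2] at hm
        have e3 : ((-1) ^ ArithmeticFunction.cardFactors m.toNat : ℤ) = -σ := by exact_mod_cast hm.2
        rw [e1, e3]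
        ring
    · intro m _ m' _ h
      exact mul_left_cancel₀ hq0.ne' h
  have h3 : (σ : ℝ) * ∑ m ∈ run y H q, Lz m ≤ |∑ m ∈ run y H q, Lz m| := by
    rcases hσ with e | e
    · rw [e]; push_cast; rw [one_mul]; exact le_abs_self _
    · rw [e]; push_cast; rw [neg_one_mul]; exact neg_le_abs _
  have h4 : (((run y H q).filter (fun m => Lz m = -(σ : ℝ))).card : ℝ) ≤
      (((Ioc y (y + H)).filter (fun n => (q ∣ n.natAbs) ∧ lam n = σ)).card : ℝ) := by exact_mod_cast h2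
  linarith

/-- one window -/
lemma one_window {y : ℤ} (hy : 0 ≤ y) {H X c2 : ℕ} (hy2 : y + H ≤ c2 * (X : ℤ) ^ 2) (hX : c2 ^ 4 < X ^ 2) (P : Finset ℕ)
    (hP : ∀ q ∈ P, (q.Prime ∧ X ≤ q ^ 4) ∧ 4 * q ≤ H) (σ : ℤ) (hσ : σ = 1 ∨ σ = -1)
    (hD : ∑ q ∈ P, |∑ m ∈ run y H q, Lz m| ≤ RP P * H / 4) :
    RP P * H / 36 ≤ (((Ioc y (y + H)).filter (fun n => lam n = σ)).card : ℝ) := by
  classical
  obtain ⟨N, hN⟩ : ∃ N : ℝ, N = (((Ioc y (y + H)).filter (fun n => lam n = σ)).card : ℝ) := ⟨_, rfl⟩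
  rw [← hN]
  have h1 : ∑ q ∈ P, (((run y H q).card : ℝ) - |∑ m ∈ run y H q, Lz m|) ≤
      ∑ q ∈ P, 2 * (((Ioc y (y + H)).filter (fun n => (q ∣ n.natAbs) ∧ lam n = σ)).card : ℝ) :=
    sum_le_sum (fun q hq => one_prime hy (hP q hq).1.1 σ hσ)
  have h2 : ∑ q ∈ P, (((Ioc y (y + H)).filter (fun n => (q ∣ n.natAbs) ∧ lam n = σ)).card : ℝ) ≤ 9 * N := by
    have e1 : ∀ q ∈ P, (((Ioc y (y + H)).filter (fun n => (q ∣ n.natAbs) ∧ lam n = σ)).card : ℝ) =
        ∑ n ∈ (Ioc y (y + H)).filter (fun n => lam n = σ), if q ∣ n.natAbs then (1 : ℝ) else 0 := by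
      intro q _
      rw [← sum_filter, sum_const, nsmul_eq_mul, mul_one, filter_filter]
      congr 2
      apply filter_congr
      intro n _
      exact and_comm
    rw [sum_congr rfl e1, sum_comm]
    have e2 : ∀ n ∈ (Ioc y (y + H)).filter (fun n => lam n = σ), ∑ q ∈ P, (if q ∣ n.natAbs then (1 : ℝ) else 0) ≤ 9 := by
      intro n hn
      rw [mem_filter, mem_Ioc] at hn
      rw [← omp_eq]
      have e3 : omp P n.natAbs ≤ 9 := by
        apply omega_le (X := X) (c2 := c2) (fun q hq => (hP q hq).1) (by omega) _ hX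
        have e4 : n ≤ c2 * (X : ℤ) ^ 2 := hn.1.2.trans hy2
        have e5 : ((n.natAbs : ℕ) : ℤ) = n := by omega
        have e6 : ((n.natAbs : ℕ) : ℤ) ≤ ((c2 * X ^ 2 : ℕ) : ℤ) := by
          rw [e5]
          push_cast
          exact e4
        exact_mod_cast e6
      exact_mod_cast e3
    refine (sum_le_sum e2).trans (le_of_eq ?_)
    rw [sum_const, nsmul_eq_mul, hN]
    ring
  have h3 : 3 / 4 * (RP P * H) ≤ ∑ q ∈ P, ((run y H q).card : ℝ) := by
    have e1 : RP P * H = ∑ q ∈ P, (H : ℝ) / q := by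
      unfold RP
      rw [sum_mul]
      apply sum_congr rfl
      intro q _
      ring
    rw [e1, mul_sum]
    apply sum_le_sum
    intro q hq
    have hq0 : (0 : ℝ) < q := by exact_mod_cast (hP q hq).1.1.pos
    have c1 := (abs_le.1 (card_run y (H := H) (hP q hq).1.1.one_lt.le)).1
    have c2 : (4 : ℝ) ≤ (H : ℝ) / q := by
      rw [le_div_iff₀ hq0]
      exact_mod_cast (hP q hq).2
    linarith
  rw [sum_sub_distrib, ← mul_sum] at h1
  linarith

open Classical in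
/-- the theorem -/
theorem finalQ (a : ℕ) (ha : 1 ≤ a) (b : ℤ) (K : ℕ) (ε : ℝ) (hε : 0 < ε) : ∃ C c : ℝ, 4 ≤ C ∧ 0 < c ∧ ∃ X₀ : ℕ,
    ∀ X : ℕ, X₀ ≤ X → ∀ (H : ℕ) (R : ℝ), C ≤ R → R * √(X * Real.log X) ≤ H → H ≤ X → ∀ g : ℤ, |g| ≤ K * H →
      (((Ioc X (2 * X)).filter (fun x => ∃ σ : ℤ, (σ = 1 ∨ σ = -1) ∧
        (((Ioc (fq a b g x) (fq a b g x + H)).filter (fun n => lam n = σ)).card : ℝ) < c * (Real.log R / Real.log X) * H)).card : ℝ) ≤
          ε * X := by
  classical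
  obtain ⟨C1, hC1, X₁, hB⟩ := blockQ a ha b K (ε / 8) (by positivity)
  obtain ⟨C, hC, X₂, hPar⟩ := paramsQ C1 hC1
  obtain ⟨c2, hc2⟩ : ∃ c : ℕ, c = 4 * a + 2 * b.natAbs + K + 1 := ⟨_, rfl⟩
  refine ⟨C, 1 / 192 / 36, hC, by norm_num, X₁ + X₂ + (c2 ^ 4 + 3) + b.natAbs + K + 1, ?_⟩
  intro X hX H R hR hRH hHX g hg
  obtain ⟨I, hI, hRP⟩ := hPar X (by omega) H R hR hRH hHX
  have hX3 : (3 : ℝ) ≤ X := by exact_mod_cast (by omega : 3 ≤ X)
  have hX0 : (0 : ℝ) < X := by linarith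
  have hlX : 0 < Real.log X := Real.log_pos (by linarith)
  have hlR : 0 < Real.log R := Real.log_pos (by linarith)
  have hH0 : (0 : ℝ) < H := lt_of_lt_of_le (mul_pos (by linarith) (Real.sqrt_pos.2 (by positivity))) hRH
  obtain ⟨P, hPd⟩ : ∃ P, P = I.biUnion blk := ⟨_, rfl⟩
  rw [← hPd] at hRP
  have hR0 : 0 < RP P := lt_of_lt_of_le (by positivity) hRP
  have hP : ∀ q ∈ P, (q.Prime ∧ X ≤ q ^ 4) ∧ 4 * q ≤ H := by
    intro q hq
    rw [hPd, mem_biUnion] at hq
    obtain ⟨i, hi, hqi⟩ := hq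
    rw [mem_blk] at hqi
    obtain ⟨g1, g2, g3⟩ := hI i hi
    refine ⟨⟨hqi.2, g1.trans (Nat.pow_le_pow_left hqi.1.1.le 4)⟩, ?_⟩
    have e1 : (q : ℝ) ≤ 2 ^ (i + 1) := by exact_mod_cast hqi.1.2
    have e2 : (4 : ℝ) * q ≤ H := by
      calc (4 : ℝ) * q ≤ 4 * 2 ^ (i + 1) := by gcongr
        _ ≤ 2 ^ (i + 1) * (4 * C1) := by
            have : (0 : ℝ) < 2 ^ (i + 1) := by positivity
            nlinarith
        _ ≤ H := g2
    exact_mod_cast e2
  -- the average
  have hA : ∑ x ∈ Ioc X (2 * X), ∑ q ∈ P, |∑ m ∈ run (fq a b g x) H q, Lz m| ≤ 2 * (ε / 8) * (RP P * H * X) := by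
    have e1 : ∑ x ∈ Ioc X (2 * X), ∑ q ∈ P, |∑ m ∈ run (fq a b g x) H q, Lz m| =
        ∑ i ∈ I, ∑ x ∈ Ioc X (2 * X), ∑ q ∈ blk i, |∑ m ∈ run (fq a b g x) H q, Lz m| := by
      rw [sum_comm (s := I)]
      apply sum_congr rfl
      intro x _
      rw [hPd, sum_biUnion (blk_disj I)]
    rw [e1, hPd, RP_union, sum_mul, sum_mul, mul_sum]
    apply sum_le_sum
    intro i hi
    obtain ⟨g1, g2, g3⟩ := hI i hi
    have e2 := hB X (by omega) H (2 ^ i) Nat.one_le_two_pow (by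
      push_cast
      refine le_trans ?_ g2
      rw [pow_succ]
      have : (0 : ℝ) < 2 ^ i := by positivity
      nlinarith) hHX (blk i) (by
        intro q hq
        rw [mem_blk, pow_succ] at hq
        exact ⟨hq.2.squarefree, hq.1.1.le, by omega⟩) g3 g hg
    refine e2.trans ?_
    have h2 := RP_blk i
    have h3 : ((blk i).card : ℝ) / 2 ^ i ≤ 2 * RP (blk i) := by
      rw [pow_succ] at h2
      have : ((blk i).card : ℝ) / 2 ^ i = 2 * (((blk i).card : ℝ) / (2 ^ i * 2)) := by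
        field_simp
      linarith
    calc ε / 8 * (X * ((blk i).card * ((H : ℝ) / (2 ^ i : ℕ)))) = ε / 8 * (((blk i).card : ℝ) / 2 ^ i) * (H * X) := by
          push_cast; ring
      _ ≤ ε / 8 * (2 * RP (blk i)) * (H * X) := by
          apply mul_le_mul_of_nonneg_right _ (by positivity)
          exact mul_le_mul_of_nonneg_left h3 (by positivity)
      _ = 2 * (ε / 8) * (RP (blk i) * H * X) := by ring
  obtain ⟨E, hE⟩ : ∃ E, E = (Ioc X (2 * X)).filter (fun x => ∃ σ : ℤ, (σ = 1 ∨ σ = -1) ∧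
        (((Ioc (fq a b g x) (fq a b g x + H)).filter (fun n => lam n = σ)).card : ℝ) <
          1 / 192 / 36 * (Real.log R / Real.log X) * H) := ⟨_, rfl⟩
  rw [← hE]
  have h1 : ∀ x ∈ E, RP P * H / 4 ≤ ∑ q ∈ P, |∑ m ∈ run (fq a b g x) H q, Lz m| := by
    intro x hx
    rw [hE, mem_filter] at hx
    obtain ⟨hx1, σ, hσ, hx2⟩ := hx
    by_contra hcon
    push Not at hcon
    obtain ⟨f0, f1⟩ := f_bounds (K := K) (by omega : b.natAbs + K + 1 ≤ X) ha hHX hg hx1
    rw [← hc2] at f1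
    have hXX : c2 ^ 4 < X ^ 2 := by
      calc c2 ^ 4 < X := by omega
        _ ≤ X ^ 2 := Nat.le_self_pow (by norm_num) X
    have key := one_window f0 f1 hXX P hP σ hσ hcon.le
    have e1 : 1 / 192 / 36 * (Real.log R / Real.log X) * H ≤ RP P * H / 36 := by
      calc 1 / 192 / 36 * (Real.log R / Real.log X) * H = (Real.log R / (192 * Real.log X)) * H / 36 := by
            field_simp
        _ ≤ RP P * H / 36 := by gcongr
    linarith
  have h2 : (E.card : ℝ) * (RP P * H / 4) ≤ 2 * (ε / 8) * (RP P * H * X) := by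
    rw [← nsmul_eq_mul, ← sum_const]
    refine (sum_le_sum h1).trans (le_trans ?_ hA)
    apply sum_le_sum_of_subset_of_nonneg
    · rw [hE]; exact filter_subset _ _
    · intro x _ _
      exact sum_nonneg fun q _ => abs_nonneg _
  have h3 : 2 * (ε / 8) * (RP P * H * X) = (ε * X) * (RP P * H / 4) := by ring
  rw [h3] at h2
  exact le_of_mul_le_mul_right h2 (by positivity)

end Pool.Agent.Helper34.NQ
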