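import Mathlib
import Pool.Agent.Helper34.NQ.B6

set_option autoImplicit false

/-! Windows of length `C √X`: the multiples of squarefree numbers. -/

namespace Pool.Agent.Helper34.NQ
open Finset Filter Topology
open Pool.Agent.Helper34.SW (lr lr_abs)

/-- the squarefree numbers of a block -/
lemma sqf_card (Q : ℕ) (hQ : 1000 ≤ Q) : (Q : ℝ) / 4 ≤ (((Ioc Q (2 * Q)).filter Squarefree).card : ℝ) := by
  classical
  have hQ0 : (1000 : ℝ) ≤ Q := by exact_mod_cast hQ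
  obtain ⟨D, hD⟩ : ∃ D, D = Nat.sqrt (2 * Q) := ⟨_, rfl⟩
  have hD3 : 3 ≤ D := by
    rw [hD, Nat.le_sqrt']
    omega
  -- the sum of the reciprocals
  have hs : ∀ n : ℕ, ∑ d ∈ Icc 2 (n + 3), 1 / (d : ℝ) ^ 2 ≤ 25 / 36 - 1 / ((n : ℝ) + 3) := by
    intro n
    induction n with
    | zero =>
      have : Icc 2 (0 + 3) = {2, 3} := by decide
      rw [this, sum_insert (by norm_num), sum_singleton]
      norm_num
    | succ n ih =>
      rw [show n + 1 + 3 = (n + 3) + 1 by ring, sum_Icc_succ_top (by omega)]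
      have h0 : (0 : ℝ) ≤ n := Nat.cast_nonneg n
      have h1 : 1 / (((n + 3 + 1 : ℕ) : ℝ)) ^ 2 ≤ 1 / ((n : ℝ) + 3) - 1 / (((n + 1 : ℕ) : ℝ) + 3) := by
        push_cast
        rw [div_sub_div _ _ (by positivity) (by positivity), div_le_div_iff₀ (by positivity) (by positivity)]
        nlinarith
      linarith
  have hs2 : ∑ d ∈ Icc 2 D, 1 / (d : ℝ) ^ 2 ≤ 25 / 36 := by
    obtain ⟨n, rfl⟩ : ∃ n, D = n + 3 := ⟨D - 3, by omega⟩
    have := hs n
    have : 0 ≤ 1 / ((n : ℝ) + 3) := by positivity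
    linarith
  -- the multiples of the squares
  have hm : ∀ d ∈ Icc 2 D, (((Ioc Q (2 * Q)).filter (fun n => d ^ 2 ∣ n)).card : ℝ) ≤ Q * (1 / (d : ℝ) ^ 2) + 1 := by
    intro d hd
    rw [mem_Icc] at hd
    have hd2 : 1 ≤ d ^ 2 := Nat.one_le_pow _ _ (by omega)
    have h1 : (Ioc Q (2 * Q)).filter (fun n => d ^ 2 ∣ n) ⊆
        ((Icc 1 Q).filter (fun h => d ^ 2 ∣ Q + h)).image (fun h => Q + h) := by
      intro n hn
      rw [mem_filter, mem_Ioc] at hn
      rw [mem_image]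
      refine ⟨n - Q, ?_, by omega⟩
      rw [mem_filter, mem_Icc]
      have : Q + (n - Q) = n := by omega
      rw [this]
      exact ⟨by omega, hn.2⟩
    have h2 := (abs_le.1 (Pool.Agent.E8helper16.SL.cnt_dvd (d ^ 2) Q Q hd2)).2
    have h3 : (((Ioc Q (2 * Q)).filter (fun n => d ^ 2 ∣ n)).card : ℝ) ≤ (((Icc 1 Q).filter (fun h => d ^ 2 ∣ Q + h)).card : ℝ) := by
      exact_mod_cast (card_le_card h1).trans card_image_le
    push_cast at h2
    have e : (Q : ℝ) * (1 / (d : ℝ) ^ 2) = Q / (d : ℝ) ^ 2 := by ring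
    rw [e]
    linarith
  have hnot : (Ioc Q (2 * Q)).filter (fun n => ¬ Squarefree n) ⊆ (Icc 2 D).biUnion (fun d => (Ioc Q (2 * Q)).filter (fun n => d ^ 2 ∣ n)) := by
    intro n hn
    rw [mem_filter, mem_Ioc] at hn
    obtain ⟨⟨n1, n2⟩, n3⟩ := hn
    rw [Nat.squarefree_iff_prime_squarefree] at n3
    push Not at n3
    obtain ⟨p, hp, hpn⟩ := n3
    rw [mem_biUnion]
    refine ⟨p, ?_, ?_⟩
    · rw [mem_Icc, hD, Nat.le_sqrt]
      exact ⟨hp.two_le, (Nat.le_of_dvd (by omega) hpn).trans n2⟩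
    · rw [mem_filter, mem_Ioc, sq]
      exact ⟨⟨n1, n2⟩, hpn⟩
  have h4 : (((Ioc Q (2 * Q)).filter (fun n => ¬ Squarefree n)).card : ℝ) ≤ Q * (25 / 36) + D := by
    have e1 : (((Ioc Q (2 * Q)).filter (fun n => ¬ Squarefree n)).card : ℝ) ≤
        ∑ d ∈ Icc 2 D, (((Ioc Q (2 * Q)).filter (fun n => d ^ 2 ∣ n)).card : ℝ) := by
      exact_mod_cast (card_le_card hnot).trans card_biUnion_le
    refine e1.trans ((sum_le_sum hm).trans ?_)
    rw [sum_add_distrib, ← mul_sum, sum_const, Nat.card_Icc, nsmul_eq_mul, mul_one]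
    have e2 : ((D + 1 - 2 : ℕ) : ℝ) ≤ D := by exact_mod_cast (by omega : D + 1 - 2 ≤ D)
    have e3 := mul_le_mul_of_nonneg_left hs2 (by linarith : (0 : ℝ) ≤ Q)
    linarith
  have h5 : ((Ioc Q (2 * Q)).card : ℝ) = (((Ioc Q (2 * Q)).filter Squarefree).card : ℝ) + (((Ioc Q (2 * Q)).filter (fun n => ¬ Squarefree n)).card : ℝ) := by
    exact_mod_cast (card_filter_add_card_filter_not (s := Ioc Q (2 * Q)) Squarefree).symm
  have h6 : ((Ioc Q (2 * Q)).card : ℝ) = Q := by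
    rw [Nat.card_Ioc]
    congr 1
    omega
  have h7 : (D : ℝ) ≤ Q / 18 := by
    have e1 : D ^ 2 ≤ 2 * Q := by rw [hD]; exact Nat.sqrt_le' _
    have e2 : (D : ℝ) ^ 2 ≤ 2 * Q := by exact_mod_cast e1
    have e3 : (D : ℝ) ^ 2 ≤ ((Q : ℝ) / 18) ^ 2 := by nlinarith
    exact le_of_sq_le_sq e3 (by positivity)
  linarith

/-- both signs in a window -/
lemma both_signs {y : ℤ} (hy : 0 ≤ y) {H q : ℕ} (hq : 1 ≤ q) (h : |∑ m ∈ run y H q, Lz m| < ((run y H q).card : ℝ))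
    (σ : ℤ) (hσ : σ = 1 ∨ σ = -1) : ∃ n ∈ Ioc y (y + H), lam n = σ := by
  have hq0 : (0 : ℤ) < q := by exact_mod_cast hq
  have hpos : ∀ m ∈ run y H q, 1 ≤ m := by
    intro m hm
    rw [mem_run hq] at hm
    by_contra hcon
    have : m ≤ 0 := by omega
    have : (q : ℤ) * m ≤ 0 := mul_nonpos_of_nonneg_of_nonpos hq0.le this
    linarith [hm.1]
  obtain ⟨τ, hτ⟩ : ∃ τ : ℤ, τ = σ * (-1) ^ ArithmeticFunction.cardFactors q := ⟨_, rfl⟩
  have hτ1 : τ = 1 ∨ τ = -1 := by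
    rcases hσ with e | e <;> rcases neg_one_pow_eq_or ℤ (ArithmeticFunction.cardFactors q) with e' | e' <;>
      rw [hτ, e, e'] <;> norm_num
  by_contra hcon
  push Not at hcon
  have h1 : ∀ m ∈ run y H q, Lz m = -(τ : ℝ) := by
    intro m hm
    have hm1 := hpos m hm
    have hm2 := (mem_run hq).1 hm
    have h2 := hcon (q * m) (by rw [mem_Ioc]; exact hm2)
    have e1 : lam ((q : ℤ) * m) = (-1) ^ ArithmeticFunction.cardFactors q * (-1) ^ ArithmeticFunction.cardFactors m.toNat := by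
      unfold lam
      rw [Int.natAbs_mul, Int.natAbs_natCast, ArithmeticFunction.cardFactors_mul (by omega) (by omega), pow_add]
      have : m.natAbs = m.toNat := by omega
      rw [this]
    have e2 : Lz m = (((-1) ^ ArithmeticFunction.cardFactors m.toNat : ℤ) : ℝ) := by
      unfold Lz lr
      rw [if_pos hm1]
      push_cast
      rfl
    rw [e1] at h2
    rw [e2]
    have e3 : ((-1) ^ ArithmeticFunction.cardFactors m.toNat : ℤ) = -τ := by
      rw [hτ]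
      rcases neg_one_pow_eq_or ℤ (ArithmeticFunction.cardFactors q) with e | e <;>
        rcases neg_one_pow_eq_or ℤ (ArithmeticFunction.cardFactors m.toNat) with e' | e' <;>
        rcases hσ with e'' | e'' <;> rw [e, e', e''] at h2 <;> rw [e, e', e''] <;> revert h2 <;> norm_num
    rw [e3]
    push_cast
    rfl
  have h2 : ∑ m ∈ run y H q, Lz m = -(τ : ℝ) * (run y H q).card := by
    rw [sum_congr rfl h1, sum_const, nsmul_eq_mul]
    ring
  rw [h2, abs_mul, abs_neg] at h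
  have h3 : |(τ : ℝ)| = 1 := by rcases hτ1 with e | e <;> rw [e] <;> norm_num
  have h4 : |((run y H q).card : ℝ)| = (run y H q).card := abs_of_nonneg (Nat.cast_nonneg _)
  rw [h3, h4, one_mul] at h
  exact lt_irrefl _ h

open Classical in
/-- windows of length `C √X` -/
theorem finalS (a : ℕ) (ha : 1 ≤ a) (b : ℤ) (K : ℕ) (ε : ℝ) (hε : 0 < ε) : ∃ C : ℝ, 1 ≤ C ∧ ∃ X₀ : ℕ,
    ∀ X : ℕ, X₀ ≤ X → ∀ H : ℕ, C * √X ≤ H → H ≤ X → ∀ g : ℤ, |g| ≤ K * H →
      (((Ioc X (2 * X)).filter (fun x => ∃ σ : ℤ, (σ = 1 ∨ σ = -1) ∧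
        ¬ ∃ n ∈ Ioc (fq a b g x) (fq a b g x + H), lam n = σ)).card : ℝ) ≤ ε * X := by
  obtain ⟨C1, hC1, X₁, hB⟩ := blockQ a ha b K (ε / 8) (by positivity)
  obtain ⟨C2, hC2⟩ : ∃ C2, C2 = C1 + 4 := ⟨_, rfl⟩
  have hC20 : 5 ≤ C2 := by rw [hC2]; linarith
  refine ⟨8 * C2, by linarith, X₁ + b.natAbs + K + 1 + 10 ^ 6, ?_⟩
  intro X hX H hH hHX g hg
  have hX6 : (10 : ℝ) ^ 6 ≤ X := by exact_mod_cast (by omega : 10 ^ 6 ≤ X)
  have hX0 : (0 : ℝ) < X := by linarith [show (0 : ℝ) < 10 ^ 6 by norm_num]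
  have hsq : (1000 : ℝ) ≤ √X := by
    apply Real.le_sqrt_of_sq_le
    linarith [show (1000 : ℝ) ^ 2 = 10 ^ 6 by norm_num]
  have hHbig : 8 * C2 * 1000 ≤ (H : ℝ) := le_trans (by gcongr) hH
  have hH0 : (0 : ℝ) < H := by
    have : 0 < 8 * C2 * 1000 := by positivity
    linarith
  obtain ⟨Q, hQ⟩ : ∃ Q, Q = ⌊(H : ℝ) / C2⌋₊ := ⟨_, rfl⟩
  have hQ1 : (Q : ℝ) ≤ H / C2 := by rw [hQ]; exact Nat.floor_le (by positivity)
  have hQ2 : (H : ℝ) / C2 < Q + 1 := by rw [hQ]; exact Nat.lt_floor_add_one _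
  have hHC : 8000 ≤ (H : ℝ) / C2 := by
    rw [le_div_iff₀ (by linarith)]
    linarith
  have hQ3 : (H : ℝ) / (2 * C2) ≤ Q := by
    have : (H : ℝ) / (2 * C2) = (H / C2) / 2 := by
      field_simp
    rw [this]
    linarith
  have hQ1000 : 1000 ≤ Q := by
    have : (1000 : ℝ) ≤ Q := by linarith
    exact_mod_cast this
  have hQ0 : (0 : ℝ) < Q := by
    have : (1000 : ℝ) ≤ Q := by exact_mod_cast hQ1000
    linarith
  obtain ⟨P, hP⟩ : ∃ P, P = (Ioc Q (2 * Q)).filter Squarefree := ⟨_, rfl⟩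
  have hPc := sqf_card Q hQ1000
  rw [← hP] at hPc
  have hQC : C2 * Q ≤ H := by
    rw [le_div_iff₀ (by linarith)] at hQ1
    linarith
  have hXP : (X : ℝ) ≤ P.card * H := by
    have e1 : (8 * C2) ^ 2 * X ≤ (H : ℝ) ^ 2 := by
      have := pow_le_pow_left₀ (by positivity) hH 2
      rwa [mul_pow, Real.sq_sqrt (by positivity)] at this
    have e2 : (H : ℝ) / (2 * C2) / 4 ≤ P.card := by linarith
    have e3 : (H : ℝ) / (2 * C2) / 4 * H ≤ P.card * H := mul_le_mul_of_nonneg_right e2 hH0.le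
    refine le_trans ?_ e3
    have e4 : (H : ℝ) / (2 * C2) / 4 * H = (H : ℝ) ^ 2 / (8 * C2) := by
      field_simp
      norm_num
    rw [e4, le_div_iff₀ (by linarith)]
    refine le_trans ?_ e1
    have e5 : 0 ≤ X * (8 * C2) := by positivity
    have e6 : (8 * C2) ^ 2 * X = (X * (8 * C2)) * (8 * C2) := by ring
    rw [e6]
    exact le_mul_of_one_le_right e5 (by linarith)
  have hPc0 : (0 : ℝ) < P.card := by linarith
  have hA := hB X (by omega) H Q (by omega) (by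
      refine le_trans ?_ hQC
      apply mul_le_mul_of_nonneg_right _ hQ0.le
      rw [hC2]; linarith) hHX P (by
      intro q hq
      rw [hP, mem_filter, mem_Ioc] at hq
      exact ⟨hq.2, hq.1.1.le, hq.1.2⟩) hXP g hg
  obtain ⟨E, hE⟩ : ∃ E, E = (Ioc X (2 * X)).filter (fun x => ∃ σ : ℤ, (σ = 1 ∨ σ = -1) ∧
        ¬ ∃ n ∈ Ioc (fq a b g x) (fq a b g x + H), lam n = σ) := ⟨_, rfl⟩
  rw [← hE]
  have h1 : ∀ x ∈ E, P.card * ((H : ℝ) / (8 * Q)) ≤ ∑ q ∈ P, |∑ m ∈ run (fq a b g x) H q, Lz m| := by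
    intro x hx
    rw [hE, mem_filter] at hx
    obtain ⟨hx1, σ, hσ, hx2⟩ := hx
    obtain ⟨f0, _⟩ := f_bounds (K := K) (by omega : b.natAbs + K + 1 ≤ X) ha hHX hg hx1
    rw [← nsmul_eq_mul, ← sum_const]
    apply sum_le_sum
    intro q hq
    rw [hP, mem_filter, mem_Ioc] at hq
    by_contra hcon
    push Not at hcon
    apply hx2
    apply both_signs f0 (by omega : 1 ≤ q) _ σ hσ
    refine lt_of_lt_of_le hcon ?_
    have hq0 : (0 : ℝ) < q := by exact_mod_cast (by omega : 0 < q)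
    have c1 := (abs_le.1 (card_run (fq a b g x) (H := H) (by omega : 1 ≤ q))).1
    have c2 : (H : ℝ) / (2 * Q) ≤ H / q := by
      apply div_le_div_of_nonneg_left hH0.le hq0
      exact_mod_cast hq.1.2
    have c3 : 4 ≤ (H : ℝ) / Q := by
      rw [le_div_iff₀ hQ0]
      nlinarith
    have c4 : (H : ℝ) / (2 * Q) = (H / Q) / 2 := by field_simp
    have c5 : (H : ℝ) / (8 * Q) = (H / Q) / 8 := by field_simp
    rw [c5]
    rw [c4] at c2
    linarith
  have h2 : (E.card : ℝ) * (P.card * ((H : ℝ) / (8 * Q))) ≤ ε / 8 * (X * (P.card * ((H : ℝ) / Q))) := by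
    rw [← nsmul_eq_mul, ← sum_const]
    refine (sum_le_sum h1).trans (le_trans ?_ hA)
    apply sum_le_sum_of_subset_of_nonneg
    · rw [hE]; exact filter_subset _ _
    · intro x _ _
      exact sum_nonneg fun q _ => abs_nonneg _
  have h3 : ε / 8 * (X * (P.card * ((H : ℝ) / Q))) = (ε * X) * (P.card * ((H : ℝ) / (8 * Q))) := by
    field_simp
  rw [h3] at h2
  exact le_of_mul_le_mul_right h2 (by positivity)

end Pool.Agent.Helper34.NQ
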